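import Pool.Agent.T3h47.CD.Delta

/-!
# Tower growth for circuits of depth three
-/

set_option autoImplicit false

namespace Pool.Agent.T3h47.CD

open Finset Pool.Agent.N584.TI

theorem Homog.mono {κ : Type*} {r : ℕ} {c : (Fin r → ℕ) → κ} {S T : Finset ℕ} (h : Homog c S)
    (hTS : T ⊆ S) : Homog c T := by
  obtain ⟨b, hb⟩ := h
  exact ⟨b, fun x hx hxT => hb x hx fun j => hTS (hxT j)⟩

theorem homog_of_arrow {κ : Type*} {r n N m : ℕ} (h : Arrow (κ := κ) AllCol r n N)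
    (hm : N ≤ 2 ^ m) [Nonempty κ] (c : (Fin r → ℕ) → κ) :
    ∃ S ⊆ range (2 ^ m), S.card = n ∧ Homog c S := by
  obtain ⟨κ₀⟩ := ‹Nonempty κ›
  obtain ⟨S, hS, hSn, b, hb⟩ := (h.mono_N hered_all hm) (ofTup r κ₀ c) trivial
  refine ⟨S, hS, hSn, b, ?_⟩
  intro x hx hxS
  have := hb _ (mem_of_tuple hxS) (card_tuple hx)
  rwa [ofTup_image hx] at this

/-- From a statement for infinitely many parameters to tower growth. -/
theorem grow_of {Good : ℕ → ℕ → Prop} (hmono : ∀ n n' m, n ≤ n' → Good n m → Good n' m)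
    (hbdd : ∀ n, ∃ B, ∀ m, Good n m → m ≤ B) {f : ℕ → ℕ} {a b k : ℕ} (ha : 1 ≤ a) (hk : 1 ≤ k)
    (hstep : ∀ n, 1 ≤ n → Good (a * n + b) (f n - 1)) (hf : Lo 1 k f) :
    ∃ c : ℝ, 0 < c ∧ ∃ N : ℕ, ∀ n : ℕ, N ≤ n →
      ∃ m : ℕ, Real.exp^[k + 1] (c * (n : ℝ)) ≤ (2 : ℝ) ^ m ∧ Good n m := by
  have hb : ∀ n, BddAbove {m | Good n m} := fun n => by
    obtain ⟨B, hB⟩ := hbdd n
    exact ⟨B, fun m hm => hB m hm⟩
  have hL : Lo 1 (k + 1) (fun n => 2 ^ sSup {m | Good n m}) := by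
    refine lo_step (a := a) (b := b) le_rfl hk ha ?_ ?_ hf
    · intro n n' hn
      apply Nat.pow_le_pow_right (by norm_num)
      rcases Set.eq_empty_or_nonempty {m | Good n m} with h | h
      · rw [h]
        simp
      · exact csSup_le_csSup (hb n') h fun m hm => hmono n n' m hn hm
    · intro n hn
      apply Nat.pow_le_pow_right (by norm_num)
      exact le_csSup (hb _) (hstep n hn)
  obtain ⟨c, hc, N, hN⟩ := hL
  refine ⟨c, hc, max N (a * 1 + b), ?_⟩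
  intro n hn
  refine ⟨sSup {m | Good n m}, ?_, ?_⟩
  · have := hN n (le_of_max_le_left hn)
    rw [pow_one] at this
    exact_mod_cast this
  · exact Nat.sSup_mem ⟨_, hmono _ _ _ (le_of_max_le_right hn) (hstep 1 le_rfl)⟩ (hb n)

theorem step_delta {κ : Type*} {κ₀ κ₁ : κ} (hκ : κ₀ ≠ κ₁) {s n m : ℕ} (hn : 1 ≤ n)
    (h : ¬ Arrow (κ := κ) AllCol (s + 3) n m) :
    ∃ P : (Fin (s + 3 + 1) → ℕ) → κ, (∀ x y : Fin (s + 3 + 1) → ℕ, StrictMono x → StrictMono y →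
      (∀ i j, i < j → del (x i) (x j) = del (y i) (y j)) → P x = P y) ∧
      ¬ ∃ S ⊆ range (2 ^ m), S.card = 2 * n + s + 2 ∧ Homog P S := by
  obtain ⟨c₀, hc₀⟩ := not_arrow_all h
  refine ⟨stepF ρD κ₀ κ₁ (lev c₀) s, ?_, ?_⟩
  · intro x y _ _ hxy
    apply stepF_congr 0
    · intro T; simp
    · intro i j hij
      unfold ρD
      rw [hxy i j hij, add_zero]
  · rintro ⟨S, hS, hSn, b, hb⟩
    obtain ⟨Λ, hΛn, hΛ, -, hΛb⟩ := step_main (n := n) isScale_ρD hκ hn (S := S) (b := b)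
      (χ := lev c₀) (s := s) (by omega) hb
    refine lev_contra hc₀ hΛn ?_ hΛb
    intro l hl
    obtain ⟨x, hx, y, hy, hxy, rfl⟩ := hΛ l hl
    exact ⟨del x y, del_lt hxy (mem_range.1 (hS hy)), rfl⟩

theorem pair_delta {κ : Type*} [Nonempty κ] {n m : ℕ} (hn : 1 ≤ n)
    (h : ¬ Arrow (κ := κ) AllCol 2 n m) :
    ∃ P : (Fin (2 + 1) → ℕ) → Bool × κ, (∀ x y : Fin (2 + 1) → ℕ, StrictMono x → StrictMono y →
      (∀ i j, i < j → del (x i) (x j) = del (y i) (y j)) → P x = P y) ∧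
      ¬ ∃ S ⊆ range (2 ^ m), S.card = n + 1 ∧ Homog P S := by
  obtain ⟨c₀, hc₀⟩ := not_arrow_all h
  refine ⟨pairF ρD (lev c₀), ?_, ?_⟩
  · intro x y _ _ hxy
    apply pairF_congr
    intro i j hij
    unfold ρD
    rw [hxy i j hij]
  · rintro ⟨S, hS, hSn, b, hb⟩
    obtain ⟨Λ, hΛn, hΛ, -, b', hΛb⟩ := pair_main (n := n) isScale_ρD hn (S := S) (b := b)
      (χ := lev c₀) (by omega) hb
    refine lev_contra hc₀ hΛn ?_ hΛb
    intro l hl
    obtain ⟨x, hx, y, hy, hxy, rfl⟩ := hΛ l hl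
    exact ⟨del x y, del_lt hxy (mem_range.1 (hS hy)), rfl⟩

/-- There is a small circuit of depth three without homogeneous set of size `n`. -/
def Good₁ (r n m : ℕ) : Prop :=
  ∃ G : Three r m, G.size ≤ 2 * r * m ^ r ∧ G.FanInTwo ∧
    ¬ ∃ S ⊆ range (2 ^ m), S.card = n ∧ Homog G.eval S

/-- There are two small circuits of depth three without common homogeneous set of size `n`. -/
def Good₂ (r n m : ℕ) : Prop :=
  ∃ G G' : Three r m, (G.size ≤ 2 * r * m ^ r ∧ G'.size ≤ 2 * r * m ^ r) ∧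
    (G.FanInTwo ∧ G'.FanInTwo) ∧
    ¬ ∃ S ⊆ range (2 ^ m), S.card = n ∧ Homog (fun x => (G.eval x, G'.eval x)) S

theorem no_mono {κ : Type*} {r n n' m : ℕ} {c : (Fin r → ℕ) → κ} (hn : n ≤ n')
    (h : ¬ ∃ S ⊆ range (2 ^ m), S.card = n ∧ Homog c S) :
    ¬ ∃ S ⊆ range (2 ^ m), S.card = n' ∧ Homog c S := by
  rintro ⟨S, hS, hSn, hc⟩
  obtain ⟨T, hTS, hT⟩ := exists_subset_card_eq (hn.trans hSn.ge)
  exact h ⟨T, hTS.trans hS, hT, hc.mono hTS⟩

theorem no_congr {κ : Type*} {r n m : ℕ} {c c' : (Fin r → ℕ) → κ}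
    (hcc : ∀ x, StrictMono x → (∀ i, x i < 2 ^ m) → c x = c' x)
    (h : ¬ ∃ S ⊆ range (2 ^ m), S.card = n ∧ Homog c' S) :
    ¬ ∃ S ⊆ range (2 ^ m), S.card = n ∧ Homog c S := by
  rintro ⟨S, hS, hSn, b, hb⟩
  exact h ⟨S, hS, hSn, b, fun x hx hxS => by
    rw [← hcc x hx fun i => mem_range.1 (hS (hxS i))]
    exact hb x hx hxS⟩

theorem good₁_bdd {r : ℕ} (hr : 1 ≤ r) (n : ℕ) : ∃ B, ∀ m, Good₁ r n m → m ≤ B := by
  refine ⟨Ram (κ := Bool) AllCol r n, ?_⟩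
  rintro m ⟨G, -, -, hG⟩
  by_contra hm
  push Not at hm
  exact hG (homog_of_arrow (Ram_spec hr) (hm.le.trans Nat.lt_two_pow_self.le) _)

theorem good₂_bdd {r : ℕ} (hr : 1 ≤ r) (n : ℕ) : ∃ B, ∀ m, Good₂ r n m → m ≤ B := by
  refine ⟨Ram (κ := Bool × Bool) AllCol r n, ?_⟩
  rintro m ⟨G, G', -, -, hG⟩
  by_contra hm
  push Not at hm
  exact hG (homog_of_arrow (Ram_spec hr) (hm.le.trans Nat.lt_two_pow_self.le) _)

theorem good₁_of {k n m : ℕ} (P : (Fin (k + 1) → ℕ) → Bool)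
    (hP : ∀ x y : Fin (k + 1) → ℕ, StrictMono x → StrictMono y →
      (∀ i j, i < j → del (x i) (x j) = del (y i) (y j)) → P x = P y)
    (h : ¬ ∃ S ⊆ range (2 ^ m), S.card = n ∧ Homog P S) : Good₁ (k + 1) n m := by
  obtain ⟨G, h1, h2, h3⟩ := exists_three P hP m
  exact ⟨G, h1, h2, no_congr h3 h⟩

theorem good₂_of {k n m : ℕ} (P : (Fin (k + 1) → ℕ) → Bool × Bool)
    (hP : ∀ x y : Fin (k + 1) → ℕ, StrictMono x → StrictMono y →
      (∀ i j, i < j → del (x i) (x j) = del (y i) (y j)) → P x = P y)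
    (h : ¬ ∃ S ⊆ range (2 ^ m), S.card = n ∧ Homog P S) : Good₂ (k + 1) n m := by
  obtain ⟨G, h1, h2, h3⟩ := exists_three (fun x => (P x).1)
    (fun x y hx hy hxy => congrArg Prod.fst (hP x y hx hy hxy)) m
  obtain ⟨G', h1', h2', h3'⟩ := exists_three (fun x => (P x).2)
    (fun x y hx hy hxy => congrArg Prod.snd (hP x y hx hy hxy)) m
  refine ⟨G, G', ⟨h1, h1'⟩, ⟨h2, h2'⟩, no_congr ?_ h⟩
  intro x hx hxm
  exact Prod.ext (h3 x hx hxm) (h3' x hx hxm)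

/-- **Two colours.** The question of Erdős and circuits of depth three. -/
theorem q1_iff {r : ℕ} (hr : 4 ≤ r) : Q1 ↔ ∃ c : ℝ, 0 < c ∧ ∃ N : ℕ, ∀ n : ℕ, N ≤ n →
    ∃ m : ℕ, Real.exp^[r - 1] (c * (n : ℝ)) ≤ (2 : ℝ) ^ m ∧ Good₁ r n m := by
  obtain ⟨s, rfl⟩ : ∃ s, r = s + 3 + 1 := ⟨r - 4, by omega⟩
  constructor
  · intro h
    have h1 := (all_iff (r := s + 3) (by omega)).2 (Q1_iff_three.1 h)
    refine grow_of (a := 2) (b := s + 2) (k := s + 2) ?_ (good₁_bdd (by omega)) (by norm_num)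
      (by omega) ?_ h1
    · rintro n n' m hn ⟨G, h2, h3, h4⟩
      exact ⟨G, h2, h3, no_mono hn h4⟩
    · intro n hn
      have h2 : n ≤ Ram (κ := Bool) AllCol (s + 3) n := le_Ram (by omega) inh_all
      obtain ⟨P, hP, hP'⟩ := step_delta (κ₀ := true) (κ₁ := false) (by decide) hn
        (not_arrow_of_lt (P := AllCol) (r := s + 3) (n := n)
          (show Ram (κ := Bool) AllCol (s + 3) n - 1 < _ by omega))
      exact good₁_of P hP (by rwa [show 2 * n + (s + 2) = 2 * n + s + 2 by ring])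
  · rintro ⟨c, hc, N, hN⟩
    rw [Q1_iff_three]
    apply (all_iff (r := s + 3 + 1) (by omega)).1
    refine ⟨c, hc, N, ?_⟩
    intro n hn
    obtain ⟨m, hm, G, -, -, hG⟩ := hN n hn
    rw [pow_one]
    refine hm.trans ?_
    have h1 : 2 ^ m < Ram (κ := Bool) AllCol (s + 3 + 1) n := by
      by_contra h
      push Not at h
      exact hG (homog_of_arrow (Ram_spec (by omega)) h _)
    exact_mod_cast h1.le

theorem lo_four {r : ℕ} (hr : 3 ≤ r) : Lo 1 (r - 1) (Ram (κ := Bool × Bool) AllCol r) := by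
  induction r, hr using Nat.le_induction with
  | base =>
    refine lo_step (k := 1) (a := 1) (b := 1) le_rfl le_rfl le_rfl
      (fun n m hnm => Ram_mono (by omega) hnm) ?_ lo_two
    intro n hn
    rw [one_mul]
    exact (pair_scale_ineq hn).le.trans (Ram_sub (by omega) fun _ _ _ _ => trivial)
  | succ r hr ih =>
    obtain ⟨q, rfl⟩ : ∃ q, r = q + 1 := ⟨r - 1, by omega⟩
    rw [show q + 1 - 1 = q by omega] at ih
    rw [show q + 1 + 1 - 1 = q + 1 by omega]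
    refine lo_step (a := 2) (b := q) le_rfl (by omega) (by norm_num)
      (fun n m hnm => Ram_mono (by omega) hnm) ?_ ih
    intro n hn
    have := scale_ineq_lower (κ := Bool × Bool) (κ₀ := (true, true)) (κ₁ := (false, false))
      (by decide) hr hn
    rw [show 2 * n + (q + 1) - 1 = 2 * n + q by omega] at this
    exact this.le.trans (Ram_sub (by omega) fun _ _ _ _ => trivial)

/-- **Four colours.** -/
theorem four {r : ℕ} (hr : 3 ≤ r) : ∃ c : ℝ, 0 < c ∧ ∃ N : ℕ, ∀ n : ℕ, N ≤ n →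
    ∃ m : ℕ, Real.exp^[r - 1] (c * (n : ℝ)) ≤ (2 : ℝ) ^ m ∧ Good₂ r n m := by
  have hmono : ∀ n n' m, n ≤ n' → Good₂ r n m → Good₂ r n' m := by
    rintro n n' m hn ⟨G, G', h2, h3, h4⟩
    exact ⟨G, G', h2, h3, no_mono hn h4⟩
  rcases hr.eq_or_lt with rfl | hr4
  · refine grow_of (a := 1) (b := 1) (k := 1) hmono (good₂_bdd (by omega)) (by norm_num)
      (by omega) ?_ lo_two
    intro n hn
    have h2 : n ≤ Ram (κ := Bool) AllCol 2 n := le_Ram (by omega) inh_all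
    obtain ⟨P, hP, hP'⟩ := pair_delta (κ := Bool) hn
      (not_arrow_of_lt (P := AllCol) (r := 2) (n := n)
        (show Ram (κ := Bool) AllCol 2 n - 1 < _ by omega))
    exact good₂_of P hP (by rwa [one_mul])
  · obtain ⟨s, rfl⟩ : ∃ s, r = s + 3 + 1 := ⟨r - 4, by omega⟩
    refine grow_of (a := 2) (b := s + 2) (k := s + 2) hmono (good₂_bdd (by omega)) (by norm_num)
      (by omega) ?_ (lo_four (r := s + 3) (by omega))
    intro n hn
    have h2 : n ≤ Ram (κ := Bool × Bool) AllCol (s + 3) n := le_Ram (by omega) inh_all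
    obtain ⟨P, hP, hP'⟩ := step_delta (κ₀ := (true, true)) (κ₁ := (false, false)) (by decide) hn
      (not_arrow_of_lt (P := AllCol) (r := s + 3) (n := n)
        (show Ram (κ := Bool × Bool) AllCol (s + 3) n - 1 < _ by omega))
    exact good₂_of P hP (by rwa [show 2 * n + (s + 2) = 2 * n + s + 2 by ring])

end Pool.Agent.T3h47.CD
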