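import Mathlib

/-!
# Terms, restrictions, matchings and covers
-/

set_option autoImplicit false

namespace Pool.Agent.T3h47.CD

open Finset

variable {r : ℕ} {ι : Type*}

/-- A literal `(j, i, b)`: the digit `i` of the vertex `j` is `b`. -/
abbrev Term (r : ℕ) (ι : Type*) := List (Fin r × ι × Bool)

/-- The term is satisfied by the tuple `x` of vertices. -/
def Sat (T : Term r ι) (x : Fin r → ι → Bool) : Prop := ∀ l ∈ T, x l.1 l.2.1 = l.2.2

/-- The coordinates of the term. -/
def co [DecidableEq ι] (T : Term r ι) : Finset ι := (T.map fun l => l.2.1).toFinset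

theorem mem_co [DecidableEq ι] {T : Term r ι} {l : Fin r × ι × Bool} (h : l ∈ T) : l.2.1 ∈ co T := by
  unfold co
  rw [List.mem_toFinset, List.mem_map]
  exact ⟨l, h, rfl⟩

/-- The term is not falsified if the coordinates outside `X` have the values `ρ` for all vertices. -/
def Alive (T : Term r ι) (X : Finset ι) (ρ : ι → Bool) : Prop :=
  ∀ l ∈ T, l.2.1 ∉ X → ρ l.2.1 = l.2.2

theorem Sat.alive {T : Term r ι} {x : Fin r → ι → Bool} (h : Sat T x) {X : Finset ι}
    {ρ : ι → Bool} (hx : ∀ j, ∀ i ∉ X, x j i = ρ i) : Alive T X ρ := by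
  intro l hl hlX
  rw [← hx l.1 _ hlX]
  exact h l hl

theorem Alive.mono {T : Term r ι} {X Y : Finset ι} {ρ : ι → Bool} (h : Alive T X ρ)
    (hXY : X ⊆ Y) : Alive T Y ρ := fun l hl hlY => h l hl fun hX => hlY (hXY hX)

/-- Either there are disjoint sets for all the indices, or one of the families has a small cover. -/
theorem match_or_cover [DecidableEq ι] {P A : Type*} [DecidableEq P] (f : P → A) (Fam : A → Set (Finset ι)) (w : ℕ)
    (hw : ∀ a, ∀ E ∈ Fam a, E.card ≤ w) (s : Finset P) :
    (∃ E : P → Finset ι, (∀ p ∈ s, E p ∈ Fam (f p)) ∧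
      ∀ p ∈ s, ∀ p' ∈ s, p ≠ p' → Disjoint (E p) (E p')) ∨
    ∃ p ∈ s, ∃ U : Finset ι, U.card ≤ s.card * w ∧ ∀ E ∈ Fam (f p), ¬ Disjoint E U := by
  classical
  induction s using Finset.induction_on with
  | empty => exact Or.inl ⟨fun _ => ∅, by simp, by simp⟩
  | insert p s hp ih =>
    rw [card_insert_of_notMem hp]
    rcases ih with ⟨E, hE, hd⟩ | ⟨p', hp', U, hU, hc⟩
    · have hUc : (s.biUnion E).card ≤ s.card * w :=
        card_biUnion_le_card_mul _ _ _ fun p' hp' => hw _ _ (hE p' hp')
      by_cases h : ∃ D ∈ Fam (f p), Disjoint D (s.biUnion E)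
      · obtain ⟨D, hD, hDd⟩ := h
        left
        refine ⟨Function.update E p D, ?_, ?_⟩
        · intro p' hp'
          by_cases hpp : p' = p
          · subst hpp
            rw [Function.update_self]
            exact hD
          · rw [Function.update_of_ne hpp]
            exact hE p' (mem_of_mem_insert_of_ne hp' hpp)
        · intro p₁ h₁ p₂ h₂ h12
          have key : ∀ q ∈ s, Disjoint D (E q) := fun q hq =>
            disjoint_of_subset_right (subset_biUnion_of_mem E hq) hDd
          by_cases h1 : p₁ = p
          · subst h1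
            have h2 : p₂ ≠ p₁ := fun h => h12 h.symm
            rw [Function.update_self, Function.update_of_ne h2]
            exact key p₂ (mem_of_mem_insert_of_ne h₂ h2)
          · by_cases h2 : p₂ = p
            · subst h2
              rw [Function.update_self, Function.update_of_ne h1]
              exact (key p₁ (mem_of_mem_insert_of_ne h₁ h1)).symm
            · rw [Function.update_of_ne h1, Function.update_of_ne h2]
              exact hd p₁ (mem_of_mem_insert_of_ne h₁ h1) p₂ (mem_of_mem_insert_of_ne h₂ h2) h12
      · right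
        refine ⟨p, mem_insert_self _ _, s.biUnion E, hUc.trans (by gcongr; omega), ?_⟩
        intro D hD hDd
        exact h ⟨D, hD, hDd⟩
    · right
      exact ⟨p', mem_insert_of_mem hp', U, hU.trans (by gcongr; omega), hc⟩

/-- Distinct codes. -/
theorem exists_code {n : ℕ} {Y : Finset ι} (h : n ≤ 2 ^ Y.card) :
    ∃ code : Fin n → Finset ι, Function.Injective code ∧ ∀ a, code a ⊆ Y := by
  rw [← card_powerset] at h
  obtain ⟨s, hs, hsc⟩ := exists_subset_card_eq h
  let e : Fin n ≃ s := (Fintype.equivFinOfCardEq (by rw [Fintype.card_coe, hsc])).symm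
  exact ⟨fun a => (e a : Finset ι), fun a b hab => e.injective (Subtype.ext hab),
    fun a => mem_powerset.1 (hs (e a).2)⟩

/-- A set of `K` independent elements in a digraph with outdegrees at most `w`. -/
theorem exists_indep {A : Type*} [DecidableEq A] (R : A → Finset A) (w : ℕ)
    (hR : ∀ a, (R a).card ≤ w) :
    ∀ (K : ℕ) (s : Finset A), (2 * w + 1) * K ≤ s.card →
      ∃ I ⊆ s, I.card = K ∧ ∀ a ∈ I, ∀ b ∈ I, a ≠ b → b ∉ R a := by
  intro K
  induction K with
  | zero => intro s _; exact ⟨∅, by simp, by simp, by simp⟩
  | succ K ih =>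
    intro s hs
    have hne : s.Nonempty := card_pos.1 (by
      rw [mul_add] at hs
      omega)
    have h1 : ∑ a ∈ s, (s.filter fun b => a ∈ R b).card ≤ ∑ _a ∈ s, w := by
      simp_rw [card_filter]
      rw [sum_comm]
      apply sum_le_sum
      intro b _
      rw [← card_filter]
      exact (card_le_card (fun x hx => (mem_filter.1 hx).2)).trans (hR b)
    obtain ⟨a, ha, hle⟩ := exists_le_of_sum_le hne h1
    set s' := s \ (insert a (R a ∪ s.filter fun b => a ∈ R b)) with hs'
    have hc : s.card ≤ s'.card + (2 * w + 1) := by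
      have h2 : s.card ≤ s'.card + (insert a (R a ∪ s.filter fun b => a ∈ R b)).card := by
        have := card_le_card_sdiff_add_card (s := s)
          (t := insert a (R a ∪ s.filter fun b => a ∈ R b))
        exact this
      have h3 : (insert a (R a ∪ s.filter fun b => a ∈ R b)).card ≤ 2 * w + 1 := by
        refine (card_insert_le _ _).trans ?_
        have := card_union_le (R a) (s.filter fun b => a ∈ R b)
        have := hR a
        omega
      omega
    obtain ⟨I, hIs, hIc, hI⟩ := ih s' (by rw [mul_add, mul_one] at hs; omega)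
    have haI : a ∉ I := fun h => by
      have := hIs h
      simp [hs'] at this
    refine ⟨insert a I, ?_, by rw [card_insert_of_notMem haI, hIc], ?_⟩
    · intro b hb
      rcases mem_insert.1 hb with rfl | hb
      · exact ha
      · exact (mem_sdiff.1 (hIs hb)).1
    · intro b hb c hc' hbc
      have hkey : ∀ d ∈ I, d ∉ R a ∧ a ∉ R d := by
        intro d hd
        have h4 := mem_sdiff.1 (hIs hd)
        have h5 := h4.2
        simp only [mem_insert, mem_union, mem_filter, not_or, not_and] at h5
        exact ⟨h5.2.1, fun h => h5.2.2 h4.1 h⟩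
      rcases mem_insert.1 hb with h6 | h6
      · rcases mem_insert.1 hc' with h7 | h7
        · exact absurd (h6.trans h7.symm) hbc
        · rw [h6]
          exact (hkey c h7).1
      · rcases mem_insert.1 hc' with h7 | h7
        · rw [h7]
          exact (hkey b h6).2
        · exact hI b h6 c h7 hbc

end Pool.Agent.T3h47.CD
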