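import Mathlib

/-!
# Circuits which read the binary digits of the vertices
-/

set_option autoImplicit false

namespace Pool.Agent.T3h47.CD

/-- Literals: `(j, i, b)` says that the binary digit number `i` of the vertex `x j` is `b`. -/
abbrev Literal (r m : ℕ) := Fin r × Fin m × Bool

/-- The value of a literal at an `r`-tuple `x` of vertices. -/
def Literal.val {r m : ℕ} (l : Literal r m) (x : Fin r → ℕ) : Bool :=
  Nat.testBit (x l.1) l.2.1 == l.2.2

/-- Circuits of depth two: `(true, G)` is an OR of ANDs of literals, `(false, G)` is an AND of ORs
of literals. -/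
abbrev Two (r m : ℕ) := Bool × List (List (Literal r m))

/-- The value of a circuit of depth two. -/
def Two.eval {r m : ℕ} (G : Two r m) (x : Fin r → ℕ) : Bool :=
  if G.1 then G.2.any fun T => T.all fun l => l.val x
  else G.2.all fun T => T.any fun l => l.val x

/-- The number of the gates which read literals. -/
def Two.size {r m : ℕ} (G : Two r m) : ℕ := G.2.length

/-- Circuits of depth three: an OR of ANDs of ORs of literals. -/
abbrev Three (r m : ℕ) := List (List (List (Literal r m)))

/-- The value of a circuit of depth three. -/
def Three.eval {r m : ℕ} (G : Three r m) (x : Fin r → ℕ) : Bool :=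
  G.any fun H => H.all fun T => T.any fun l => l.val x

/-- The number of the gates which read literals. -/
def Three.size {r m : ℕ} (G : Three r m) : ℕ := (G.map fun H => H.length).sum

/-- The gates which read literals have at most two inputs. -/
def Three.FanInTwo {r m : ℕ} (G : Three r m) : Prop := ∀ H ∈ G, ∀ T ∈ H, T.length ≤ 2

/-- All the increasing `r`-tuples in `S`, that is, all the `r`-subsets of `S`, have the same
colour. -/
def Homog {κ : Type*} {r : ℕ} (c : (Fin r → ℕ) → κ) (S : Finset ℕ) : Prop :=
  ∃ b : κ, ∀ x : Fin r → ℕ, StrictMono x → (∀ j, x j ∈ S) → c x = b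

/-- All the `r`-tuples of distinct elements of `S`, in any order, have the same colour. -/
def StrongHomog {κ : Type*} {r : ℕ} (c : (Fin r → ℕ) → κ) (S : Finset ℕ) : Prop :=
  ∃ b : κ, ∀ x : Fin r → ℕ, Function.Injective x → (∀ j, x j ∈ S) → c x = b

end Pool.Agent.T3h47.CD
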