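import Pool.Agent.T3h47.CD.Defs
import Pool.Agent.N584.TI.Final

/-!
# The highest differing digit and circuits of depth three
-/

set_option autoImplicit false

namespace Pool.Agent.T3h47.CD

open Finset

/-- The highest binary digit in which `a` and `b` differ. -/
def del (a b : ℕ) : ℕ := Nat.log 2 (a ^^^ b)

theorem del_lt_iff {a b : ℕ} (hab : a ≠ b) (k : ℕ) : del a b < k ↔ a / 2 ^ k = b / 2 ^ k := by
  have hne : a ^^^ b ≠ 0 := fun h => hab (Nat.xor_eq_zero_iff.1 h)
  unfold del
  rw [Nat.log_lt_iff_lt_pow (by norm_num) hne, ← Nat.shiftRight_eq_div_pow,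
    ← Nat.shiftRight_eq_div_pow, ← Nat.xor_eq_zero_iff, ← Nat.shiftRight_xor_distrib,
    Nat.shiftRight_eq_div_pow, Nat.div_eq_zero_iff]
  constructor
  · exact Or.inr
  · rintro (h | h)
    · exact absurd h (by positivity)
    · exact h

theorem del_iff {a b : ℕ} (hab : a < b) (j : ℕ) : del a b = j ↔
    a.testBit j = false ∧ b.testBit j = true ∧ ∀ l, j < l → a.testBit l = b.testBit l := by
  have hne : a ^^^ b ≠ 0 := fun h => hab.ne (Nat.xor_eq_zero_iff.1 h)
  have h1 : a.testBit (del a b) ≠ b.testBit (del a b) := by
    have h := Nat.testBit_log2 hne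
    rw [Nat.log2_eq_log_two, Nat.testBit_xor] at h
    intro h2
    unfold del at h2
    rw [h2] at h
    simp at h
  have h2 : ∀ l, del a b < l → a.testBit l = b.testBit l := by
    intro l hl
    have h3 : (a ^^^ b).testBit l = false := by
      apply Nat.testBit_lt_two_pow
      exact (Nat.log_lt_iff_lt_pow (by norm_num) hne).1 hl
    rw [Nat.testBit_xor] at h3
    simpa using h3
  have h3 : a.testBit (del a b) = false ∧ b.testBit (del a b) = true := by
    cases ha : a.testBit (del a b)
    · refine ⟨rfl, ?_⟩
      rw [ha] at h1
      simpa using h1.symm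
    · exfalso
      have hb : b.testBit (del a b) = false := by
        rw [ha] at h1
        simpa using h1.symm
      have := Nat.lt_of_testBit _ hb ha fun l hl => (h2 l hl).symm
      omega
  constructor
  · rintro rfl
    exact ⟨h3.1, h3.2, h2⟩
  · rintro ⟨h4, h5, h6⟩
    rcases lt_trichotomy (del a b) j with h | h | h
    · have := h2 j h
      rw [h4, h5] at this
      exact absurd this (by simp)
    · exact h
    · exact absurd (h6 _ h) h1

theorem del_lt {a b m : ℕ} (hab : a < b) (hb : b < 2 ^ m) : del a b < m := by
  rw [del_lt_iff hab.ne, Nat.div_eq_of_lt hb, Nat.div_eq_of_lt (hab.trans hb)]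

theorem del_mono {a b c d : ℕ} (hab : a ≤ b) (hbc : b < c) (hcd : c ≤ d) :
    del b c ≤ del a d := by
  have h1 := (del_lt_iff (a := a) (b := d) (by omega) (del a d + 1)).1 (Nat.lt_succ_self _)
  have h2 : b / 2 ^ (del a d + 1) = c / 2 ^ (del a d + 1) := by
    have h3 := Nat.div_le_div_right (c := 2 ^ (del a d + 1)) hab
    have h4 := Nat.div_le_div_right (c := 2 ^ (del a d + 1)) hbc.le
    have h5 := Nat.div_le_div_right (c := 2 ^ (del a d + 1)) hcd
    omega
  have h3 := (del_lt_iff hbc.ne (del a d + 1)).2 h2
  omega

theorem del_doub {a b c : ℕ} (hab : a < b) (hbc : b < c) :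
    del a b < del a c ∨ del b c < del a c := by
  by_contra hcon
  push Not at hcon
  obtain ⟨h1, h2⟩ := hcon
  have hac : a < c := hab.trans hbc
  set k := del a c with hk
  have h3 : a / 2 ^ k ≠ b / 2 ^ k := fun h => by
    have := (del_lt_iff hab.ne k).2 h
    omega
  have h4 : b / 2 ^ k ≠ c / 2 ^ k := fun h => by
    have := (del_lt_iff hbc.ne k).2 h
    omega
  have h5 := (del_lt_iff hac.ne (k + 1)).1 (by omega)
  have h6 := Nat.div_le_div_right (c := 2 ^ k) hab.le
  have h7 := Nat.div_le_div_right (c := 2 ^ k) hbc.le
  rw [pow_succ, ← Nat.div_div_eq_div_mul, ← Nat.div_div_eq_div_mul] at h5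
  omega

/-- The scale. -/
noncomputable def ρD (a b : ℕ) : ℝ := (del a b : ℝ)

theorem isScale_ρD : Pool.Agent.N584.TI.IsScale ρD := by
  constructor
  · intro a b c d hab hbc hcd
    unfold ρD
    exact_mod_cast del_mono hab hbc hcd
  · intro a b c hab hbc
    unfold ρD
    have h1 := del_mono (le_refl a) hab hbc.le
    have h2 := del_mono hab.le hbc (le_refl c)
    rcases del_doub hab hbc with h | h
    · have h3 : ((del a b : ℕ) : ℝ) + 1 ≤ (del a c : ℝ) := by exact_mod_cast h
      have := min_le_left ((del a b : ℕ) : ℝ) (del b c : ℝ)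
      linarith
    · have h3 : ((del b c : ℕ) : ℝ) + 1 ≤ (del a c : ℝ) := by exact_mod_cast h
      have := min_le_right ((del a b : ℕ) : ℝ) (del b c : ℝ)
      linarith

/-- The largest of two consecutive values. -/
theorem del_max {a b c : ℕ} (hab : a < b) (hbc : b < c) :
    del a c = max (del a b) (del b c) := by
  have h1 := del_mono (le_refl a) hab hbc.le
  have h2 := del_mono hab.le hbc (le_refl c)
  apply le_antisymm _ (max_le h1 h2)
  have hac := hab.trans hbc
  set k := max (del a b) (del b c) with hk
  have h3 := (del_lt_iff hab.ne (k + 1)).1 (by omega)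
  have h4 := (del_lt_iff hbc.ne (k + 1)).1 (by omega)
  have := (del_lt_iff hac.ne (k + 1)).2 (h3.trans h4)
  omega

/-- The values at neighbours determine all values. -/
theorem del_all {k : ℕ} {x y : Fin (k + 1) → ℕ} (hx : StrictMono x) (hy : StrictMono y)
    (h : ∀ i : Fin k, del (x i.castSucc) (x i.succ) = del (y i.castSucc) (y i.succ)) :
    ∀ i j, i < j → del (x i) (x j) = del (y i) (y j) := by
  intro i j
  induction j using Fin.induction with
  | zero => intro hij; exact absurd hij (by simp)
  | succ j ih =>
    intro hij
    rcases (Fin.le_castSucc_iff.2 hij).lt_or_eq with h1 | h1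
    · rw [del_max (hx h1) (hx (Fin.castSucc_lt_succ)), del_max (hy h1)
        (hy (Fin.castSucc_lt_succ)), ih h1, h j]
    · rw [h1, h j]

/-! ### The circuit -/

variable {k m : ℕ}

/-- The ORs which say that the highest differing digit of the vertices `i` and `i + 1` is `j`. -/
def clauses (i : Fin k) (j : Fin m) : List (List (Literal (k + 1) m)) :=
  (List.finRange m).flatMap fun l =>
    if l = j then [[(i.castSucc, j, false)], [(i.succ, j, true)]]
    else if j < l then [[(i.castSucc, l, true), (i.succ, l, false)],
      [(i.castSucc, l, false), (i.succ, l, true)]]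
    else []

theorem clauses_length (i : Fin k) (j : Fin m) : (clauses i j).length ≤ 2 * m := by
  unfold clauses
  rw [List.length_flatMap]
  have h : ∀ (L : List (Fin m)), (L.map fun l => (if l = j then
      [[(i.castSucc, j, false)], [(i.succ, j, true)]]
      else if j < l then [[(i.castSucc, l, true), (i.succ, l, false)],
      [(i.castSucc, l, false), (i.succ, l, true)]]
      else ([] : List (List (Literal (k + 1) m)))).length).sum ≤ 2 * L.length := by
    intro L
    induction L with
    | nil => simp
    | cons a L ih =>
      rw [List.map_cons, List.sum_cons, List.length_cons]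
      have h2 : (if a = j then [[(i.castSucc, j, false)], [(i.succ, j, true)]]
        else if j < a then [[(i.castSucc, a, true), (i.succ, a, false)],
        [(i.castSucc, a, false), (i.succ, a, true)]]
        else ([] : List (List (Literal (k + 1) m)))).length ≤ 2 := by
        split_ifs <;> simp
      omega
  refine (h _).trans ?_
  rw [List.length_finRange]

theorem clauses_fan (i : Fin k) (j : Fin m) : ∀ T ∈ clauses i j, T.length ≤ 2 := by
  intro T hT
  unfold clauses at hT
  rw [List.mem_flatMap] at hT
  obtain ⟨l, -, hT⟩ := hT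
  split_ifs at hT <;> simp at hT
  · rcases hT with rfl | rfl <;> simp
  · rcases hT with rfl | rfl <;> simp

theorem clauses_eval {i : Fin k} {j : Fin m} {x : Fin (k + 1) → ℕ} (hx : StrictMono x)
    (hm : ∀ i, x i < 2 ^ m) :
    ((clauses i j).all fun T => T.any fun l => l.val x) = true ↔
      del (x i.castSucc) (x i.succ) = j := by
  rw [del_iff (hx Fin.castSucc_lt_succ), List.all_eq_true]
  unfold clauses
  constructor
  · intro h
    have hj1 := h [(i.castSucc, j, false)] (by
      rw [List.mem_flatMap]
      exact ⟨j, List.mem_finRange j, by simp⟩)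
    have hj2 := h [(i.succ, j, true)] (by
      rw [List.mem_flatMap]
      exact ⟨j, List.mem_finRange j, by simp⟩)
    simp only [List.any_cons, List.any_nil, Bool.or_false, Literal.val, beq_iff_eq] at hj1 hj2
    refine ⟨hj1, hj2, ?_⟩
    intro l hl
    by_cases hlm : l < m
    · have h1 := h [(i.castSucc, ⟨l, hlm⟩, true), (i.succ, ⟨l, hlm⟩, false)] (by
        rw [List.mem_flatMap]
        refine ⟨⟨l, hlm⟩, List.mem_finRange _, ?_⟩
        rw [if_neg (by rintro rfl; exact lt_irrefl _ hl), if_pos (by exact hl)]
        simp)
      have h2 := h [(i.castSucc, ⟨l, hlm⟩, false), (i.succ, ⟨l, hlm⟩, true)] (by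
        rw [List.mem_flatMap]
        refine ⟨⟨l, hlm⟩, List.mem_finRange _, ?_⟩
        rw [if_neg (by rintro rfl; exact lt_irrefl _ hl), if_pos (by exact hl)]
        simp)
      simp only [List.any_cons, List.any_nil, Bool.or_false, Literal.val, Bool.or_eq_true,
        beq_iff_eq] at h1 h2
      rcases h1 with h1 | h1 <;> rcases h2 with h2 | h2
      · rw [h1] at h2; exact absurd h2 (by simp)
      · rw [h1, h2]
      · rw [h1, h2]
      · rw [h1] at h2; exact absurd h2 (by simp)
    · have h3 : (2 : ℕ) ^ m ≤ 2 ^ l := Nat.pow_le_pow_right (by norm_num) (by omega)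
      rw [Nat.testBit_lt_two_pow ((hm _).trans_le h3), Nat.testBit_lt_two_pow
        ((hm _).trans_le h3)]
  · rintro ⟨h1, h2, h3⟩ T hT
    rw [List.mem_flatMap] at hT
    obtain ⟨l, -, hT⟩ := hT
    split_ifs at hT with hlj hjl
    · simp only [List.mem_cons, List.not_mem_nil, or_false] at hT
      rcases hT with rfl | rfl
      · simp [Literal.val, h1]
      · simp [Literal.val, h2]
    · have h4 := h3 l hjl
      simp only [List.mem_cons, List.not_mem_nil, or_false] at hT
      rcases hT with rfl | rfl
      · simp only [List.any_cons, List.any_nil, Bool.or_false, Literal.val, Bool.or_eq_true,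
          beq_iff_eq]
        rw [h4]
        cases (x i.succ).testBit l <;> simp
      · simp only [List.any_cons, List.any_nil, Bool.or_false, Literal.val, Bool.or_eq_true,
          beq_iff_eq]
        rw [h4]
        cases (x i.succ).testBit l <;> simp
    · simp at hT

open Classical in
/-- Every predicate which depends only on the highest differing digits is computed by a small
circuit of depth three. -/
theorem exists_three (P : (Fin (k + 1) → ℕ) → Bool)
    (hP : ∀ x y : Fin (k + 1) → ℕ, StrictMono x → StrictMono y →
      (∀ i j, i < j → del (x i) (x j) = del (y i) (y j)) → P x = P y) (m : ℕ) :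
    ∃ G : Three (k + 1) m, G.size ≤ 2 * (k + 1) * m ^ (k + 1) ∧ G.FanInTwo ∧
      ∀ x : Fin (k + 1) → ℕ, StrictMono x → (∀ i, x i < 2 ^ m) → G.eval x = P x := by
  let good : Finset (Fin k → Fin m) := univ.filter fun d => ∃ y : Fin (k + 1) → ℕ, StrictMono y ∧
    (∀ i : Fin k, del (y i.castSucc) (y i.succ) = d i) ∧ P y = true
  let G : Three (k + 1) m := good.toList.map fun d =>
    (List.finRange k).flatMap fun i => clauses i (d i)
  refine ⟨G, ?_, ?_, ?_⟩
  · have h1 : ∀ d : Fin k → Fin m,
        ((List.finRange k).flatMap fun i => clauses i (d i)).length ≤ k * (2 * m) := by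
      intro d
      rw [List.length_flatMap]
      have h2 : ∀ L : List (Fin k), (L.map fun i => (clauses i (d i)).length).sum ≤
          L.length * (2 * m) := by
        intro L
        induction L with
        | nil => simp
        | cons a L ih =>
          rw [List.map_cons, List.sum_cons, List.length_cons, add_mul, one_mul, add_comm]
          exact Nat.add_le_add ih (clauses_length _ _)
      refine (h2 _).trans ?_
      rw [List.length_finRange]
    have h3 : ∀ L : List (Fin k → Fin m), Three.size (L.map fun d =>
        (List.finRange k).flatMap fun i => clauses i (d i)) ≤ L.length * (k * (2 * m)) := by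
      intro L
      unfold Three.size
      induction L with
      | nil => simp
      | cons a L ih =>
        rw [List.map_cons, List.map_cons, List.sum_cons, List.length_cons, add_mul, one_mul,
          add_comm]
        exact Nat.add_le_add ih (h1 a)
    refine (h3 _).trans ?_
    rw [length_toList]
    have h4 : good.card ≤ m ^ k := by
      refine (card_le_univ _).trans ?_
      rw [Fintype.card_fun, Fintype.card_fin, Fintype.card_fin]
    calc good.card * (k * (2 * m)) ≤ m ^ k * (k * (2 * m)) := Nat.mul_le_mul_right _ h4
      _ = 2 * k * m ^ (k + 1) := by ring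
      _ ≤ 2 * (k + 1) * m ^ (k + 1) := by gcongr; omega
  · intro H hH T hT
    obtain ⟨d, -, rfl⟩ := List.mem_map.1 hH
    obtain ⟨i, -, hT⟩ := List.mem_flatMap.1 hT
    exact clauses_fan _ _ T hT
  · intro x hx hm
    have key : ∀ d : Fin k → Fin m, (((List.finRange k).flatMap fun i => clauses i (d i)).all
        fun T => T.any fun l => l.val x) = true ↔
        ∀ i : Fin k, del (x i.castSucc) (x i.succ) = d i := by
      intro d
      have h5 := fun i => clauses_eval (i := i) (j := d i) hx hm
      simp only [← h5, List.all_eq_true, List.mem_flatMap]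
      constructor
      · intro h i T hT
        exact h T ⟨i, List.mem_finRange i, hT⟩
      · rintro h T ⟨i, -, hT⟩
        exact h i T hT
    have h6 : G.eval x = true ↔ P x = true := by
      unfold Three.eval
      rw [List.any_eq_true]
      constructor
      · rintro ⟨H, hH, hHe⟩
        obtain ⟨d, hd, rfl⟩ := List.mem_map.1 hH
        rw [mem_toList, mem_filter] at hd
        obtain ⟨-, y, hy, hyd, hPy⟩ := hd
        rw [key] at hHe
        rw [hP x y hx hy (del_all hx hy fun i => by rw [hHe i, hyd i]), hPy]
      · intro hPx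
        have hlt : ∀ i : Fin k, del (x i.castSucc) (x i.succ) < m := fun i =>
          del_lt (hx Fin.castSucc_lt_succ) (hm _)
        refine ⟨_, List.mem_map.2 ⟨fun i => ⟨_, hlt i⟩, ?_, rfl⟩, (key _).2 fun i => rfl⟩
        rw [mem_toList, mem_filter]
        exact ⟨mem_univ _, x, hx, fun i => rfl, hPx⟩
    exact Bool.eq_iff_iff.2 h6

end Pool.Agent.T3h47.CD
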