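import Mathlib

/-!
# Hashing families

`n` points, `K` functions from the points to `Fin r`; every injective `r`-tuple of points is
recognised by one of the functions.
-/

set_option autoImplicit false

namespace Pool.Agent.T3h47.CD

open Finset

/-- Every injective tuple `t` is recognised by one of the `K` functions `φ · k`. -/
def IsHash {r n K : ℕ} (φ : Fin n → Fin K → Fin r) : Prop :=
  ∀ t : Fin r → Fin n, Function.Injective t → ∃ k, ∀ j, φ (t j) k = j

theorem card_recog {r n : ℕ} (t : Fin r → Fin n) (ht : Function.Injective t) :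
    (univ.filter fun ψ : Fin n → Fin r => ∀ j, ψ (t j) = j).card * r ^ r = r ^ n := by
  classical
  have h1 : (univ.filter fun ψ : Fin n → Fin r => ∀ j, ψ (t j) = j) =
      Fintype.piFinset fun a : Fin n =>
        univ.filter fun i : Fin r => ∀ j, t j = a → i = j := by
    ext ψ
    simp only [mem_filter, mem_univ, true_and, Fintype.mem_piFinset]
    constructor
    · rintro h a j rfl
      exact h j
    · intro h j
      exact h (t j) j rfl
  rw [h1, Fintype.card_piFinset]
  have h2 : ∀ a : Fin n, (univ.filter fun i : Fin r => ∀ j, t j = a → i = j).card =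
      if a ∈ univ.image t then 1 else r := by
    intro a
    split_ifs with ha
    · obtain ⟨j, -, rfl⟩ := mem_image.1 ha
      rw [card_eq_one]
      refine ⟨j, ?_⟩
      ext i
      simp only [mem_filter, mem_univ, true_and, mem_singleton]
      constructor
      · intro h
        exact h j rfl
      · rintro rfl j' hj'
        exact (ht hj').symm
    · rw [filter_true_of_mem, card_univ, Fintype.card_fin]
      intro i _ j hj
      exact absurd (mem_image.2 ⟨j, mem_univ _, hj⟩) ha
  simp_rw [h2]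
  rw [prod_ite, prod_const_one, one_mul, prod_const]
  have h3 : (univ.filter fun a : Fin n => a ∉ univ.image t).card + r = n := by
    have h4 : (univ.filter fun a : Fin n => a ∈ univ.image t).card = r := by
      have : (univ.filter fun a : Fin n => a ∈ univ.image t) = univ.image t := by
        ext a; simp
      rw [this, card_image_of_injective _ ht, card_univ, Fintype.card_fin]
    have h5 := card_filter_add_card_filter_not (s := (univ : Finset (Fin n)))
      (fun a => a ∈ univ.image t)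
    rw [h4, card_univ, Fintype.card_fin] at h5
    omega
  rw [← pow_add, h3]

/-- One function recognises at least the fraction `r ^ (-r)` of a set of injective tuples. -/
theorem exists_good {r n : ℕ} (hr : 1 ≤ r) (U : Finset (Fin r → Fin n))
    (hU : ∀ t ∈ U, Function.Injective t) :
    ∃ ψ : Fin n → Fin r,
      (U.filter fun t => ¬ ∀ j, ψ (t j) = j).card * r ^ r ≤ U.card * (r ^ r - 1) := by
  classical
  by_contra hcon
  have hcon' := not_exists.1 hcon
  have h0 : 0 < r ^ r := by positivity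
  have h1 : ∀ ψ : Fin n → Fin r,
      (U.filter fun t => ∀ j, ψ (t j) = j).card * r ^ r < U.card := by
    intro ψ
    have h2 := card_filter_add_card_filter_not (s := U) (fun t => ∀ j, ψ (t j) = j)
    have h3 := not_le.1 (hcon' ψ)
    have h4 : U.card * (r ^ r - 1) = U.card * r ^ r - U.card := by
      rw [Nat.mul_sub, mul_one]
    have h5 : U.card ≤ U.card * r ^ r := Nat.le_mul_of_pos_right _ h0
    have h6 : U.card * r ^ r = (U.filter fun t => ∀ j, ψ (t j) = j).card * r ^ r +
        (U.filter fun t => ¬ ∀ j, ψ (t j) = j).card * r ^ r := by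
      rw [← add_mul, h2]
    omega
  have : Nonempty (Fin r) := ⟨⟨0, hr⟩⟩
  have h2 : ∑ ψ : Fin n → Fin r, (U.filter fun t => ∀ j, ψ (t j) = j).card * r ^ r <
      ∑ _ψ : Fin n → Fin r, U.card :=
    sum_lt_sum_of_nonempty univ_nonempty fun ψ _ => h1 ψ
  have h3 : ∑ ψ : Fin n → Fin r, (U.filter fun t => ∀ j, ψ (t j) = j).card * r ^ r =
      U.card * r ^ n := by
    have h4 : ∀ ψ : Fin n → Fin r, (U.filter fun t => ∀ j, ψ (t j) = j).card =
        ∑ t ∈ U, if ∀ j, ψ (t j) = j then 1 else 0 := fun ψ => card_filter _ _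
    simp_rw [h4]
    rw [← sum_mul, sum_comm]
    have h5 : ∀ t ∈ U, (∑ ψ : Fin n → Fin r, if ∀ j, ψ (t j) = j then 1 else 0) * r ^ r =
        r ^ n := by
      intro t ht
      rw [← card_filter]
      exact card_recog t (hU t ht)
    rw [sum_mul, sum_congr rfl h5, sum_const, smul_eq_mul]
  rw [h3, sum_const, smul_eq_mul, card_univ, Fintype.card_fun, Fintype.card_fin,
    Fintype.card_fin, mul_comm] at h2
  exact lt_irrefl _ h2

theorem exists_hash_aux {r n : ℕ} (hr : 1 ≤ r) :
    ∀ K : ℕ, ∃ φ : Fin n → Fin K → Fin r,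
      ((univ.filter fun t : Fin r → Fin n => Function.Injective t ∧
        ¬ ∃ k, ∀ j, φ (t j) k = j).card) * (r ^ r) ^ K ≤ n ^ r * (r ^ r - 1) ^ K := by
  classical
  intro K
  induction K with
  | zero =>
    refine ⟨fun _ k => k.elim0, ?_⟩
    simp only [pow_zero, mul_one]
    refine (card_le_univ _).trans ?_
    simp
  | succ K ih =>
    obtain ⟨φ, hφ⟩ := ih
    obtain ⟨ψ, hψ⟩ := exists_good hr (univ.filter fun t : Fin r → Fin n =>
      Function.Injective t ∧ ¬ ∃ k, ∀ j, φ (t j) k = j) (fun t ht => (mem_filter.1 ht).2.1)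
    refine ⟨fun a => Fin.cons (ψ a) (φ a), ?_⟩
    have h1 : (univ.filter fun t : Fin r → Fin n => Function.Injective t ∧
        ¬ ∃ k, ∀ j, (Fin.cons (ψ (t j)) (φ (t j)) : Fin (K + 1) → Fin r) k = j) ⊆
        ((univ.filter fun t : Fin r → Fin n => Function.Injective t ∧
          ¬ ∃ k, ∀ j, φ (t j) k = j).filter fun t => ¬ ∀ j, ψ (t j) = j) := by
      intro t ht
      simp only [mem_filter, mem_univ, true_and] at ht ⊢
      refine ⟨⟨ht.1, ?_⟩, ?_⟩
      · rintro ⟨k, hk⟩
        exact ht.2 ⟨k.succ, fun j => by rw [Fin.cons_succ]; exact hk j⟩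
      · intro h
        exact ht.2 ⟨0, fun j => by rw [Fin.cons_zero]; exact h j⟩
    have h2 := card_le_card h1
    calc _ ≤ ((univ.filter fun t : Fin r → Fin n => Function.Injective t ∧
          ¬ ∃ k, ∀ j, φ (t j) k = j).filter fun t => ¬ ∀ j, ψ (t j) = j).card *
          (r ^ r) ^ (K + 1) := Nat.mul_le_mul_right _ h2
      _ = (((univ.filter fun t : Fin r → Fin n => Function.Injective t ∧
          ¬ ∃ k, ∀ j, φ (t j) k = j).filter fun t => ¬ ∀ j, ψ (t j) = j).card * r ^ r) *
          (r ^ r) ^ K := by ring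
      _ ≤ ((univ.filter fun t : Fin r → Fin n => Function.Injective t ∧
          ¬ ∃ k, ∀ j, φ (t j) k = j).card * (r ^ r - 1)) * (r ^ r) ^ K :=
          Nat.mul_le_mul_right _ hψ
      _ = ((univ.filter fun t : Fin r → Fin n => Function.Injective t ∧
          ¬ ∃ k, ∀ j, φ (t j) k = j).card * (r ^ r) ^ K) * (r ^ r - 1) := by ring
      _ ≤ (n ^ r * (r ^ r - 1) ^ K) * (r ^ r - 1) := Nat.mul_le_mul_right _ hφ
      _ = _ := by ring

theorem exists_hash {r n K : ℕ} (hr : 1 ≤ r)
    (h : n ^ r * (r ^ r - 1) ^ K < (r ^ r) ^ K) : ∃ φ : Fin n → Fin K → Fin r, IsHash φ := by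
  classical
  obtain ⟨φ, hφ⟩ := exists_hash_aux (n := n) hr K
  refine ⟨φ, ?_⟩
  have h0 : 0 < (r ^ r) ^ K := by positivity
  have h1 : (univ.filter fun t : Fin r → Fin n => Function.Injective t ∧
        ¬ ∃ k, ∀ j, φ (t j) k = j).card = 0 := by
    by_contra hne
    have h2 : 1 * (r ^ r) ^ K ≤ _ := (Nat.mul_le_mul_right ((r ^ r) ^ K)
      (Nat.one_le_iff_ne_zero.2 hne)).trans hφ
    omega
  intro t ht
  by_contra hne
  exact notMem_empty t (by
    rw [← card_eq_zero.1 h1]
    exact mem_filter.2 ⟨mem_univ _, ht, hne⟩)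

theorem pow_half {R : ℕ} (hR : 2 ≤ R) : (R - 1) ^ R * 2 ≤ R ^ R := by
  obtain ⟨q, rfl⟩ : ∃ q, R = q + 2 := ⟨R - 2, by omega⟩
  rw [show q + 2 - 1 = q + 1 by omega]
  have h1 : (1 : ℝ) + ((q + 2 : ℕ) : ℝ) * (1 / (q + 1)) ≤ (1 + 1 / (q + 1)) ^ (q + 2) :=
    one_add_mul_le_pow (by
      have : (0 : ℝ) ≤ 1 / (q + 1) := by positivity
      linarith) _
  have h2 : (2 : ℝ) ≤ (1 + 1 / ((q : ℝ) + 1)) ^ (q + 2) := by
    refine le_trans ?_ h1
    have : ((q + 2 : ℕ) : ℝ) * (1 / ((q : ℝ) + 1)) ≥ 1 := by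
      rw [ge_iff_le, mul_one_div, le_div_iff₀ (by positivity)]
      push_cast
      linarith
    linarith
  have h3 : (1 + 1 / ((q : ℝ) + 1)) = ((q + 2 : ℕ) : ℝ) / ((q + 1 : ℕ) : ℝ) := by
    push_cast
    field_simp
    ring
  rw [h3, div_pow, le_div_iff₀ (by positivity)] at h2
  have h4 : ((2 * (q + 1) ^ (q + 2) : ℕ) : ℝ) ≤ (((q + 2) ^ (q + 2) : ℕ) : ℝ) := by
    push_cast
    push_cast at h2
    exact h2
  have h5 := Nat.cast_le.1 h4
  linarith

/-- Explicit parameters. -/
theorem exists_hash_log {r n : ℕ} (hr : 2 ≤ r) :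
    ∃ φ : Fin n → Fin (r ^ r * (r * (Nat.log 2 n + 1))) → Fin r, IsHash φ := by
  apply exists_hash (by omega)
  set R := r ^ r with hR
  set j := r * (Nat.log 2 n + 1) with hj
  have hR2 : 2 ≤ R := by
    calc 2 ≤ r := hr
      _ = r ^ 1 := (pow_one r).symm
      _ ≤ r ^ r := Nat.pow_le_pow_right (by omega) (by omega)
  have h1 : n ^ r < 2 ^ j := by
    have h2 : n < 2 ^ (Nat.log 2 n + 1) := Nat.lt_pow_succ_log_self (by norm_num) n
    calc n ^ r < (2 ^ (Nat.log 2 n + 1)) ^ r := Nat.pow_lt_pow_left h2 (by omega)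
      _ = 2 ^ j := by rw [← pow_mul, hj, mul_comm]
  have h2 : 0 < (R - 1) ^ (R * j) := Nat.pow_pos (by omega)
  calc n ^ r * (R - 1) ^ (R * j) < 2 ^ j * (R - 1) ^ (R * j) :=
        Nat.mul_lt_mul_of_pos_right h1 h2
    _ = ((R - 1) ^ R * 2) ^ j := by rw [mul_pow, ← pow_mul]; ring
    _ ≤ (R ^ R) ^ j := Nat.pow_le_pow_left (pow_half hR2) _
    _ = R ^ (R * j) := by rw [← pow_mul]

end Pool.Agent.T3h47.CD
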