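import Pool.Agent.T3h47.CD.Hash
import Pool.Agent.T3h47.CD.Basic

/-!
# Several functions of small width
-/

set_option autoImplicit false

namespace Pool.Agent.T3h47.CD

open Finset

variable {r : ℕ} {ι : Type*}

/-- All tuples with distinct entries agree on whether a term of `F` is satisfied. -/
def Fixed (F : List (Term r ι)) {n : ℕ} (v : Fin n → ι → Bool) : Prop :=
  (∀ t : Fin r → Fin n, Function.Injective t → ∃ T ∈ F, Sat T fun j => v (t j)) ∨
  (∀ t : Fin r → Fin n, Function.Injective t → ∀ T ∈ F, ¬ Sat T fun j => v (t j))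

theorem multi [DecidableEq ι] {q n K : ℕ} {φ : Fin n → Fin K → Fin r} (hφ : IsHash φ)
    (F : Fin q → List (Term r ι)) (hsat : ∀ l, ∀ T ∈ F l, ∃ x, Sat T x) (w g : ℕ)
    (hg : n ≤ 2 ^ g) :
    ∀ (W : ℕ) (X : Finset ι) (ρ : ι → Bool) (wd : Fin q → ℕ), ∑ l, wd l = W →
      (∀ l, wd l ≤ w) → (∀ l, ∀ T ∈ F l, Alive T X ρ → (co T ∩ X).card ≤ wd l) →
      (W + 1) * (q * K * w) + g ≤ X.card →
      ∃ v : Fin n → ι → Bool, Function.Injective v ∧ (∀ a, ∀ i, i ∉ X → v a i = ρ i) ∧
        ∀ l, Fixed (F l) v := by
  classical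
  intro W
  induction W using Nat.strong_induction_on with
  | _ W ih =>
  intro X ρ wd hW hwd hT hX
  set Λ : Finset (Fin q) := univ.filter fun l => (∃ T ∈ F l, Alive T X ρ) ∧
    ∀ T ∈ F l, Alive T X ρ → (co T ∩ X).Nonempty with hΛ
  set s : Finset (Fin q × Fin K) := Λ ×ˢ univ with hs
  have hsc : s.card ≤ q * K := by
    rw [hs, card_product, card_univ, Fintype.card_fin]
    refine Nat.mul_le_mul_right _ ((card_le_univ _).trans ?_)
    rw [Fintype.card_fin]
  have hqKw : s.card * w ≤ q * K * w := Nat.mul_le_mul_right _ hsc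
  rcases match_or_cover (fun p : Fin q × Fin K => p.1)
    (fun l => {E | ∃ T ∈ F l, Alive T X ρ ∧ E = co T ∩ X}) w
    (by
      rintro l E ⟨T, hTF, hTa, rfl⟩
      exact (hT l T hTF hTa).trans (hwd l)) s with ⟨E, hE, hd⟩ | ⟨p, hp, U, hU, hc⟩
  · -- disjoint terms
    have hE' : ∀ p : Fin q × Fin K, ∃ T : Term r ι, ∃ z : Fin r → ι → Bool, p ∈ s →
        T ∈ F p.1 ∧ Alive T X ρ ∧ E p = co T ∩ X ∧ Sat T z := by
      intro p
      by_cases hp : p ∈ s
      · obtain ⟨T, hTF, hTa, hTE⟩ := hE p hp
        obtain ⟨z, hz⟩ := hsat _ T hTF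
        exact ⟨T, z, fun _ => ⟨hTF, hTa, hTE, hz⟩⟩
      · exact ⟨[], fun _ _ => false, fun h => absurd h hp⟩
    choose Tm z hTz using hE'
    have hEX : ∀ p ∈ s, E p ⊆ X := fun p hp => by
      rw [(hTz p hp).2.2.1]
      exact inter_subset_right
    set U := s.biUnion E with hU
    have hUc : U.card ≤ s.card * w :=
      card_biUnion_le_card_mul _ _ _ fun p hp => by
        obtain ⟨T, hTF, hTa, hTE⟩ := hE p hp
        rw [hTE]
        exact (hT _ T hTF hTa).trans (hwd _)
    have hXU : n ≤ 2 ^ (X \ U).card := by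
      refine hg.trans (Nat.pow_le_pow_right (by norm_num) ?_)
      have h1 : X.card ≤ (X \ U).card + U.card := card_le_card_sdiff_add_card
      have h2 : (W + 1) * (q * K * w) = W * (q * K * w) + q * K * w := by ring
      omega
    obtain ⟨code, hcode, hcX⟩ := exists_code hXU
    let v : Fin n → ι → Bool := fun a i =>
      if h : ∃ p ∈ s, i ∈ E p then z h.choose (φ a h.choose.2) i
      else if i ∈ X then decide (i ∈ code a) else ρ i
    have hv1 : ∀ a, ∀ p ∈ s, ∀ i ∈ E p, v a i = z p (φ a p.2) i := by
      intro a p hp i hi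
      have h : ∃ p ∈ s, i ∈ E p := ⟨p, hp, hi⟩
      have h1 : h.choose = p := by
        by_contra hne
        exact disjoint_left.1 (hd _ h.choose_spec.1 p hp hne) h.choose_spec.2 hi
      simp only [v, dif_pos h]
      rw [h1]
    have hv2 : ∀ a i, i ∉ X → v a i = ρ i := by
      intro a i hi
      have h : ¬ ∃ p ∈ s, i ∈ E p := by
        rintro ⟨p, hp, hip⟩
        exact hi (hEX p hp hip)
      simp only [v, dif_neg h, if_neg hi]
    have hv3 : ∀ a i, i ∈ X \ U → v a i = decide (i ∈ code a) := by
      intro a i hi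
      obtain ⟨h1, h2⟩ := mem_sdiff.1 hi
      have h : ¬ ∃ p ∈ s, i ∈ E p := by
        rintro ⟨p, hp, hip⟩
        exact h2 (mem_biUnion.2 ⟨p, hp, hip⟩)
      simp only [v, dif_neg h, if_pos h1]
    refine ⟨v, ?_, hv2, ?_⟩
    · intro a b hab
      apply hcode
      ext i
      by_cases hi : i ∈ X \ U
      · have h1 := hv3 a i hi
        have h2 := hv3 b i hi
        rw [hab, h2] at h1
        have h3 := decide_eq_decide.1 h1
        exact h3.symm
      · exact ⟨fun h => absurd (hcX a h) hi, fun h => absurd (hcX b h) hi⟩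
    · intro l
      by_cases hl : l ∈ Λ
      · left
        intro t ht
        obtain ⟨k, hk⟩ := hφ t ht
        have hp : (l, k) ∈ s := by
          rw [hs, mem_product]
          exact ⟨hl, mem_univ _⟩
        obtain ⟨h1, h2, h3, h4⟩ := hTz (l, k) hp
        refine ⟨Tm (l, k), h1, ?_⟩
        intro lit hlit
        by_cases hi : lit.2.1 ∈ X
        · have h5 : lit.2.1 ∈ E (l, k) := by
            rw [h3, mem_inter]
            exact ⟨mem_co hlit, hi⟩
          have h6 := hv1 (t lit.1) (l, k) hp _ h5
          show v (t lit.1) lit.2.1 = lit.2.2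
          rw [h6, hk]
          exact h4 lit hlit
        · have h6 := hv2 (t lit.1) _ hi
          show v (t lit.1) lit.2.1 = lit.2.2
          rw [h6]
          exact h2 lit hlit hi
      · rw [hΛ, mem_filter, not_and, not_and_or] at hl
        rcases hl (mem_univ _) with h | h
        · right
          intro t _ T hTF hsatT
          exact h ⟨T, hTF, hsatT.alive fun j i hi => hv2 _ i hi⟩
        · left
          push Not at h
          obtain ⟨T, hTF, hTa, hTe⟩ := h
          intro t _
          refine ⟨T, hTF, ?_⟩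
          intro lit hlit
          have hi : lit.2.1 ∉ X := by
            intro hi
            have h5 : lit.2.1 ∈ co T ∩ X := mem_inter.2 ⟨mem_co hlit, hi⟩
            rw [hTe] at h5
            exact notMem_empty _ h5
          have h6 := hv2 (t lit.1) _ hi
          show v (t lit.1) lit.2.1 = lit.2.2
          rw [h6]
          exact hTa lit hlit hi
  · -- a cover
    have hpl : p.1 ∈ Λ := (mem_product.1 hp).1
    obtain ⟨⟨T₀, hT₀F, hT₀a⟩, hne⟩ := (mem_filter.1 hpl).2
    have hwl : 1 ≤ wd p.1 :=
      (card_pos.2 (hne T₀ hT₀F hT₀a)).trans_le (hT _ T₀ hT₀F hT₀a)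
    have hsum : ∑ l, Function.update wd p.1 (wd p.1 - 1) l = W - 1 := by
      rw [← hW, ← add_sum_erase _ _ (mem_univ p.1), ← add_sum_erase _ wd (mem_univ p.1)]
      rw [Function.update_self]
      have : ∑ l ∈ univ.erase p.1, Function.update wd p.1 (wd p.1 - 1) l =
          ∑ l ∈ univ.erase p.1, wd l := by
        apply sum_congr rfl
        intro l hl
        rw [Function.update_of_ne (ne_of_mem_erase hl)]
      rw [this]
      omega
    have hW1 : 1 ≤ W := by
      rw [← hW]
      exact hwl.trans (single_le_sum (f := wd) (fun _ _ => Nat.zero_le _) (mem_univ p.1))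
    have hXc : (W - 1 + 1) * (q * K * w) + g ≤ (X \ U).card := by
      have h1 : X.card ≤ (X \ U).card + U.card := card_le_card_sdiff_add_card
      have h2 : (W + 1) * (q * K * w) = W * (q * K * w) + q * K * w := by ring
      rw [show W - 1 + 1 = W by omega]
      omega
    obtain ⟨v, hv, hvX, hvF⟩ := ih (W - 1) (by omega) (X \ U) ρ
      (Function.update wd p.1 (wd p.1 - 1)) hsum (by
        intro l
        by_cases hl : l = p.1
        · subst hl
          rw [Function.update_self]
          exact (Nat.sub_le _ _).trans (hwd _)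
        · rw [Function.update_of_ne hl]
          exact hwd l) (by
        intro l T hTF hTa
        have hTa' : Alive T X ρ := hTa.mono sdiff_subset
        by_cases hl : l = p.1
        · subst hl
          rw [Function.update_self]
          have h1 := hc _ ⟨T, hTF, hTa', rfl⟩
          have h2 : co T ∩ (X \ U) ⊂ co T ∩ X := by
            rw [ssubset_iff_of_subset (inter_subset_inter_left sdiff_subset)]
            obtain ⟨i, hi1, hi2⟩ := not_disjoint_iff.1 h1
            refine ⟨i, hi1, ?_⟩
            intro hi3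
            exact (mem_sdiff.1 (mem_inter.1 hi3).2).2 hi2
          have h3 := card_lt_card h2
          have h4 := hT _ T hTF hTa'
          omega
        · rw [Function.update_of_ne hl]
          exact (card_le_card (inter_subset_inter_left sdiff_subset)).trans (hT l T hTF hTa'))
      hXc
    refine ⟨v, hv, ?_, hvF⟩
    intro a i hi
    exact hvX a i fun h => hi (mem_sdiff.1 h).1

end Pool.Agent.T3h47.CD
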