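import Pool.Agent.T3h47.CD.Basic

/-!
# A common restriction
-/

set_option autoImplicit false

namespace Pool.Agent.T3h47.CD

open Finset

variable {r : ℕ} {ι : Type*} [DecidableEq ι] [Fintype ι]

instance (T : Term r ι) (X : Finset ι) (ρ : ι → Bool) : Decidable (Alive T X ρ) :=
  inferInstanceAs (Decidable (∀ l ∈ T, l.2.1 ∉ X → ρ l.2.1 = l.2.2))

theorem card_box {β : Type*} [Fintype β] [DecidableEq β] (D : Finset ι) (A : ι → Finset β) (a : ℕ)
    (hA : ∀ i ∈ D, (A i).card = a) :
    (univ.filter fun σ : ι → β => ∀ i ∈ D, σ i ∈ A i).card * Fintype.card β ^ D.card =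
      a ^ D.card * Fintype.card β ^ Fintype.card ι := by
  have h1 : (univ.filter fun σ : ι → β => ∀ i ∈ D, σ i ∈ A i) =
      Fintype.piFinset fun i => if i ∈ D then A i else univ := by
    ext σ
    simp only [mem_filter, mem_univ, true_and, Fintype.mem_piFinset]
    constructor
    · intro h i
      split_ifs with hi
      · exact h i hi
      · exact mem_univ _
    · intro h i hi
      have := h i
      rwa [if_pos hi] at this
  have h2 : ∀ i, (if i ∈ D then A i else (univ : Finset β)).card =
      if i ∈ D then a else Fintype.card β := by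
    intro i
    split_ifs with hi
    · exact hA i hi
    · rfl
  rw [h1, Fintype.card_piFinset]
  simp_rw [h2]
  rw [prod_ite, prod_const, prod_const]
  have h3 : (univ.filter fun i => i ∈ D) = D := by ext i; simp
  have h4 : (univ.filter fun i => i ∈ D).card + (univ.filter fun i => i ∉ D).card =
      Fintype.card ι := card_filter_add_card_filter_not _
  rw [h3] at h4 ⊢
  rw [mul_assoc, ← pow_add]
  congr 2
  omega

/-- If `T` has at least `v` coordinates, a random restriction falsifies it with probability at least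
`1 - (2 / 3) ^ v`. -/
theorem card_alive (T : Term r ι) {v : ℕ} (hv : v ≤ (co T).card) :
    (univ.filter fun σ : ι → Option Bool => Alive T (univ.filter fun i => σ i = none)
      (fun i => (σ i).getD false)).card * 3 ^ v ≤ 2 ^ v * 3 ^ Fintype.card ι := by
  classical
  have hb : ∀ i, ∃ b : Bool, i ∈ co T → ∃ j, (j, i, b) ∈ T := by
    intro i
    by_cases hi : i ∈ co T
    · unfold co at hi
      rw [List.mem_toFinset, List.mem_map] at hi
      obtain ⟨⟨j, i', b⟩, hl, rfl⟩ := hi
      exact ⟨b, fun _ => ⟨j, hl⟩⟩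
    · exact ⟨false, fun h => absurd h hi⟩
  choose b hb using hb
  obtain ⟨D, hD, hDc⟩ := exists_subset_card_eq hv
  have h1 := card_box (β := Option Bool) D (fun i => {none, some (b i)}) 2 (by
    intro i _
    rw [card_pair]
    simp)
  have h3 : Fintype.card (Option Bool) = 3 := by simp
  rw [h3, hDc] at h1
  rw [← h1]
  apply Nat.mul_le_mul_right
  apply card_le_card
  intro σ hσ
  rw [mem_filter] at hσ ⊢
  refine ⟨mem_univ _, ?_⟩
  intro i hi
  obtain ⟨j, hj⟩ := hb i (hD hi)
  rw [mem_insert, mem_singleton]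
  by_cases hn : σ i = none
  · exact Or.inl hn
  · right
    have h4 := hσ.2 _ hj (by
      rw [mem_filter, not_and]
      exact fun _ => hn)
    obtain ⟨c, hc⟩ := Option.ne_none_iff_exists'.1 hn
    simp only [hc, Option.getD_some] at h4
    rw [hc, h4]

/-- **The restriction lemma.** -/
theorem restrict (F : List (Term r ι)) {s v : ℕ} (hs : F.length ≤ s)
    (hsv : 6 * s * 2 ^ v ≤ 3 ^ v) :
    ∃ (X : Finset ι) (ρ : ι → Bool), Fintype.card ι ≤ 6 * X.card ∧
      ∀ T ∈ F, Alive T X ρ → (co T).card < v := by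
  classical
  by_contra hcon
  push Not at hcon
  set m := Fintype.card ι with hm
  have h3 : Fintype.card (Option Bool) = 3 := by simp
  -- the number of bad terms
  let bad : (ι → Option Bool) → ℕ := fun σ =>
    ∑ T ∈ F.toFinset, if v ≤ (co T).card ∧ Alive T (univ.filter fun i => σ i = none)
      (fun i => (σ i).getD false) then 1 else 0
  have h1 : ∀ σ : ι → Option Bool,
      6 * (univ.filter fun i => σ i = none).card < m + 6 * m * bad σ := by
    intro σ
    by_cases h : m ≤ 6 * (univ.filter fun i => σ i = none).card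
    · obtain ⟨T, hTF, hTa, hTv⟩ := hcon _ (fun i => (σ i).getD false) h
      have hbad : 1 ≤ bad σ := by
        have h2 : (if v ≤ (co T).card ∧ Alive T (univ.filter fun i => σ i = none)
            (fun i => (σ i).getD false) then 1 else 0) ≤ bad σ :=
          single_le_sum (f := fun T => if v ≤ (co T).card ∧
            Alive T (univ.filter fun i => σ i = none)
            (fun i => (σ i).getD false) then 1 else 0) (fun _ _ => Nat.zero_le _)
            (List.mem_toFinset.2 hTF)
        rwa [if_pos ⟨hTv, hTa⟩] at h2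
      have h4 : (univ.filter fun i => σ i = none).card ≤ m := card_le_univ _
      have h5 : 6 * m * 1 ≤ 6 * m * bad σ := Nat.mul_le_mul_left _ hbad
      rcases Nat.eq_zero_or_pos m with hm0 | hm0
      · exfalso
        have h6 : IsEmpty ι := Fintype.card_eq_zero_iff.1 (hm.symm.trans hm0)
        have h7 : (co T).card = 0 := by
          rw [card_eq_zero]
          exact eq_empty_of_isEmpty _
        rw [h7] at hTv
        have h8 : v = 0 := by omega
        subst h8
        have h9 : 1 ≤ F.length := List.length_pos_of_mem hTF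
        simp only [pow_zero, mul_one] at hsv
        omega
      · omega
    · push Not at h
      omega
  have h2 : ∑ σ : ι → Option Bool, 6 * (univ.filter fun i => σ i = none).card <
      ∑ σ : ι → Option Bool, (m + 6 * m * bad σ) :=
    sum_lt_sum_of_nonempty univ_nonempty fun σ _ => h1 σ
  have h4 : ∑ σ : ι → Option Bool, 6 * (univ.filter fun i => σ i = none).card =
      2 * m * 3 ^ m := by
    have h5 : ∀ σ : ι → Option Bool, 6 * (univ.filter fun i => σ i = none).card =
        ∑ i : ι, 6 * (if σ i = none then 1 else 0) := by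
      intro σ
      rw [card_filter, mul_sum]
    simp_rw [h5]
    rw [sum_comm]
    have h6 : ∀ i : ι, ∑ σ : ι → Option Bool, 6 * (if σ i = none then 1 else 0) =
        2 * 3 ^ m := by
      intro i
      rw [← mul_sum, ← card_filter]
      have h7 := card_box (β := Option Bool) {i} (fun _ => {none}) 1 (by simp)
      simp only [mem_singleton, forall_eq, card_singleton, h3, pow_one, one_mul] at h7
      rw [← hm] at h7
      omega
    simp_rw [h6]
    rw [sum_const, card_univ, smul_eq_mul, ← hm]
    ring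
  have h5 : ∑ σ : ι → Option Bool, bad σ * 3 ^ v ≤ s * (2 ^ v * 3 ^ m) := by
    simp only [bad]
    simp_rw [sum_mul]
    rw [sum_comm]
    have h6 : ∀ T ∈ F.toFinset, ∑ σ : ι → Option Bool,
        (if v ≤ (co T).card ∧ Alive T (univ.filter fun i => σ i = none)
          (fun i => (σ i).getD false) then 1 else 0) * 3 ^ v ≤ 2 ^ v * 3 ^ m := by
      intro T _
      rw [← sum_mul]
      by_cases hv : v ≤ (co T).card
      · have h7 := card_alive T hv
        rw [card_filter] at h7
        simpa only [hv, true_and] using h7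
      · simp [hv]
    refine (sum_le_card_nsmul _ _ _ h6).trans ?_
    rw [smul_eq_mul]
    exact Nat.mul_le_mul_right _ ((List.toFinset_card_le _).trans hs)
  have h6 : ∑ σ : ι → Option Bool, (m + 6 * m * bad σ) =
      m * 3 ^ m + 6 * m * ∑ σ : ι → Option Bool, bad σ := by
    rw [sum_add_distrib, sum_const, card_univ, smul_eq_mul, ← mul_sum, Fintype.card_fun, h3,
      ← hm]
    ring
  rw [h4, h6] at h2
  rw [← sum_mul] at h5
  have h7 : 6 * (∑ σ : ι → Option Bool, bad σ) * 3 ^ v ≤ 3 ^ v * 3 ^ m := by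
    calc 6 * (∑ σ : ι → Option Bool, bad σ) * 3 ^ v =
        6 * ((∑ σ : ι → Option Bool, bad σ) * 3 ^ v) := by ring
      _ ≤ 6 * (s * (2 ^ v * 3 ^ m)) := Nat.mul_le_mul_left _ h5
      _ = (6 * s * 2 ^ v) * 3 ^ m := by ring
      _ ≤ 3 ^ v * 3 ^ m := Nat.mul_le_mul_right _ hsv
  have h8 : 6 * (∑ σ : ι → Option Bool, bad σ) ≤ 3 ^ m := by
    have h9 : 0 < 3 ^ v := by positivity
    rw [mul_comm (3 ^ v)] at h7
    exact Nat.le_of_mul_le_mul_right h7 h9
  have h9 : 6 * m * ∑ σ : ι → Option Bool, bad σ ≤ m * 3 ^ m := by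
    calc 6 * m * ∑ σ : ι → Option Bool, bad σ = m * (6 * ∑ σ : ι → Option Bool, bad σ) := by ring
      _ ≤ m * 3 ^ m := Nat.mul_le_mul_left _ h8
  have h10 : 2 * m * 3 ^ m = m * 3 ^ m + m * 3 ^ m := by ring
  omega

theorem log_cond (s : ℕ) : 6 * s * 2 ^ (2 * (Nat.log 2 s + 4)) ≤ 3 ^ (2 * (Nat.log 2 s + 4)) := by
  have h1 : s < 2 ^ (Nat.log 2 s + 1) := Nat.lt_pow_succ_log_self (by norm_num) s
  set t := Nat.log 2 s with ht
  have h2 : 6 * s ≤ 2 ^ (t + 4) := by
    have : 2 ^ (t + 4) = 8 * 2 ^ (t + 1) := by ring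
    omega
  calc 6 * s * 2 ^ (2 * (t + 4)) ≤ 2 ^ (t + 4) * 2 ^ (2 * (t + 4)) := Nat.mul_le_mul_right _ h2
    _ = 8 ^ (t + 4) := by rw [← pow_add, show (8 : ℕ) = 2 ^ 3 by norm_num, ← pow_mul]; ring_nf
    _ ≤ 9 ^ (t + 4) := Nat.pow_le_pow_left (by norm_num) _
    _ = 3 ^ (2 * (t + 4)) := by rw [show (9 : ℕ) = 3 ^ 2 by norm_num, ← pow_mul]

end Pool.Agent.T3h47.CD
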