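import Pool.Agent.T3h47.CD.Multi

/-!
# One function of small width
-/

set_option autoImplicit false

namespace Pool.Agent.T3h47.CD

open Finset

variable {r : ℕ} {ι : Type*}

theorem exists_tuple {r n : ℕ} (hr : 2 ≤ r) (hn : r ≤ n) {a b : Fin n} (hab : a ≠ b) :
    ∃ t : Fin r → Fin n, Function.Injective t ∧ ∃ i j, i ≠ j ∧ t i = a ∧ t j = b := by
  classical
  let f : Fin r → Fin n := fun i => ⟨i.1, i.2.trans_le hn⟩
  have hf : Function.Injective f := fun i j h => Fin.ext (by simpa [f] using h)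
  let i0 : Fin r := ⟨0, by omega⟩
  let i1 : Fin r := ⟨1, by omega⟩
  have h01 : i0 ≠ i1 := by simp [i0, i1, Fin.ext_iff]
  -- a permutation moving `f i0` to `a` and `f i1` to `b`
  let σ : Equiv.Perm (Fin n) := Equiv.swap (f i0) a
  let τ : Equiv.Perm (Fin n) := Equiv.swap (σ (f i1)) b
  have hσ0 : σ (f i0) = a := Equiv.swap_apply_left _ _
  have hτa : τ a = a := by
    apply Equiv.swap_apply_of_ne_of_ne
    · rw [← hσ0]
      intro h
      exact h01 (hf (σ.injective h))
    · exact hab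
  refine ⟨fun i => τ (σ (f i)), fun i j h => hf (σ.injective (τ.injective h)), i0, i1, h01, ?_, ?_⟩
  · show τ (σ (f i0)) = a
    rw [hσ0, hτa]
  · show τ (σ (f i1)) = b
    exact Equiv.swap_apply_left _ _

theorem card_meet [DecidableEq ι] {J : ℕ} (D : Finset ι) (G : Fin J → Finset ι)
    (hG : ∀ j j', j ≠ j' → Disjoint (G j) (G j')) :
    (univ.filter fun j => ¬ Disjoint D (G j)).card ≤ D.card := by
  apply card_le_card_of_forall_subsingleton (fun j i => i ∈ G j)
  · intro j hj
    obtain ⟨i, hi, hi'⟩ := not_disjoint_iff.1 (mem_filter.1 hj).2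
    exact ⟨i, hi, hi'⟩
  · intro i _ j hj j' hj'
    by_contra hne
    exact disjoint_left.1 (hG j j' hne) hj.2 hj'.2

theorem single [DecidableEq ι] {n K : ℕ} {φ : Fin n → Fin K → Fin r} (hφ : IsHash φ)
    (hr : 2 ≤ r) (F : List (Term r ι)) (w g : ℕ) (hg : n ≤ 2 ^ g) (X : Finset ι) (ρ : ι → Bool)
    (hT : ∀ T ∈ F, Alive T X ρ → (co T ∩ X).card ≤ w)
    (hX : ((2 * w + 1) * K + 1) * g ≤ X.card) :
    ∃ v : Fin n → ι → Bool, Function.Injective v ∧ Fixed F v := by
  classical
  have hcode : ∀ G : Finset ι, G.card = g → ∃ v : Fin n → ι → Bool, Function.Injective v ∧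
      ∀ a i, i ∉ G → v a i = ρ i := by
    intro G hG
    obtain ⟨code, hcode, hcG⟩ := exists_code (n := n) (Y := G) (by rw [hG]; exact hg)
    refine ⟨fun a i => if i ∈ G then decide (i ∈ code a) else ρ i, ?_, ?_⟩
    · intro a b hab
      apply hcode
      ext i
      by_cases hi : i ∈ G
      · have h1 := congrFun hab i
        simp only [if_pos hi] at h1
        exact decide_eq_decide.1 h1
      · exact ⟨fun h => absurd (hcG a h) hi, fun h => absurd (hcG b h) hi⟩
    · intro a i hi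
      simp only [if_neg hi]
  obtain ⟨G₀, hG₀, hG₀c⟩ := exists_subset_card_eq (s := X) (n := g)
    ((Nat.le_mul_of_pos_left g (Nat.succ_pos _)).trans hX)
  by_cases hn : r ≤ n
  swap
  · obtain ⟨v, hv, -⟩ := hcode G₀ hG₀c
    refine ⟨v, hv, Or.inl ?_⟩
    intro t ht
    have := Fintype.card_le_of_injective t ht
    simp only [Fintype.card_fin] at this
    exact absurd this hn
  set J := (2 * w + 1) * K with hJ
  -- disjoint groups
  obtain ⟨G, hGX, hGc, hGd⟩ : ∃ G : Fin J → Finset ι, (∀ j, G j ⊆ X) ∧ (∀ j, (G j).card = g) ∧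
      ∀ j j', j ≠ j' → Disjoint (G j) (G j') := by
    obtain ⟨Y, hY, hYc⟩ := exists_subset_card_eq (s := X) (n := J * g)
      (le_trans (Nat.mul_le_mul_right _ (Nat.le_succ _)) hX)
    let e : Fin J × Fin g ≃ Y := (finProdFinEquiv.trans
      (Fintype.equivFinOfCardEq (by rw [Fintype.card_coe, hYc])).symm)
    refine ⟨fun j => univ.image fun k => (e (j, k) : ι), ?_, ?_, ?_⟩
    · intro j i hi
      obtain ⟨k, -, rfl⟩ := mem_image.1 hi
      exact hY (e (j, k)).2
    · intro j
      rw [card_image_of_injective, card_univ, Fintype.card_fin]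
      intro k k' h
      have := e.injective (Subtype.ext h)
      exact (Prod.mk.inj this).2
    · intro j j' hjj
      rw [disjoint_left]
      intro i hi hi'
      obtain ⟨k, -, rfl⟩ := mem_image.1 hi
      obtain ⟨k', -, h⟩ := mem_image.1 hi'
      have := e.injective (Subtype.ext h)
      exact hjj (Prod.mk.inj this).1.symm
  by_cases h : ∃ j, ∀ x : Fin r → ι → Bool, Function.Injective x →
      (∀ a i, i ∉ G j → x a i = ρ i) → ∀ T ∈ F, ¬ Sat T x
  · obtain ⟨j, hj⟩ := h
    obtain ⟨v, hv, hvG⟩ := hcode (G j) (hGc j)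
    exact ⟨v, hv, Or.inr fun t ht T hTF => hj _ (hv.comp ht) (fun a i hi => hvG _ i hi) T hTF⟩
  push Not at h
  choose x hx hxG T hTF hTx using h
  have hTa : ∀ j, Alive (T j) X ρ := fun j =>
    (hTx j).alive fun a i hi => hxG j a i fun h => hi (hGX j h)
  -- the digraph
  obtain ⟨I, -, hIc, hI⟩ := exists_indep
    (fun j : Fin J => univ.filter fun j' => ¬ Disjoint (co (T j) ∩ X) (G j')) w (by
      intro j
      exact (card_meet _ G hGd).trans (hT _ (hTF j) (hTa j))) K univ
      (by rw [card_univ, Fintype.card_fin])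
  have hI' : ∀ a ∈ I, ∀ b ∈ I, a ≠ b → ∀ i ∈ co (T a), i ∉ G b := by
    intro a ha b hb hab i hi hib
    apply hI a ha b hb hab
    rw [mem_filter]
    exact ⟨mem_univ _, not_disjoint_iff.2 ⟨i, mem_inter.2 ⟨hi, hGX b hib⟩, hib⟩⟩
  let e : Fin K ≃ I := (Fintype.equivFinOfCardEq (by rw [Fintype.card_coe, hIc])).symm
  let v : Fin n → ι → Bool := fun a i =>
    if h : ∃ k : Fin K, i ∈ G (e k) then x (e h.choose) (φ a h.choose) i else ρ i
  have hv1 : ∀ a k, ∀ i ∈ G (e k), v a i = x (e k) (φ a k) i := by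
    intro a k i hi
    have h : ∃ k : Fin K, i ∈ G (e k) := ⟨k, hi⟩
    have h1 : h.choose = k := by
      by_contra hne
      have hne' : (e h.choose : Fin J) ≠ e k := fun h' => hne (e.injective (Subtype.ext h'))
      exact disjoint_left.1 (hGd _ _ hne') h.choose_spec hi
    simp only [v, dif_pos h]
    rw [h1]
  have hv2 : ∀ a i, (∀ k, i ∉ G (e k)) → v a i = ρ i := by
    intro a i hi
    have h : ¬ ∃ k : Fin K, i ∈ G (e k) := fun ⟨k, hk⟩ => hi k hk
    simp only [v, dif_neg h]
  refine ⟨v, ?_, Or.inl ?_⟩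
  · intro a b hab
    by_contra hne
    obtain ⟨t, ht, i, j, hij, hi, hj⟩ := exists_tuple hr hn hne
    obtain ⟨k, hk⟩ := hφ t ht
    apply hij
    apply hx (e k)
    funext c
    by_cases hc : c ∈ G (e k)
    · have h1 := hv1 a k c hc
      have h2 := hv1 b k c hc
      rw [← hi, hk] at h1
      rw [← hj, hk] at h2
      rw [← h1, ← h2, hi, hj, hab]
    · rw [hxG _ _ _ hc, hxG _ _ _ hc]
  · intro t ht
    obtain ⟨k, hk⟩ := hφ t ht
    refine ⟨T (e k), hTF _, ?_⟩
    intro lit hlit
    show v (t lit.1) lit.2.1 = lit.2.2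
    by_cases hi : lit.2.1 ∈ G (e k)
    · rw [hv1 _ _ _ hi, hk]
      exact hTx (e k) lit hlit
    · rw [hv2, ← hxG (e k) lit.1 _ hi]
      · exact hTx (e k) lit hlit
      · intro k'
        by_cases hkk : k' = k
        · rw [hkk]
          exact hi
        · exact hI' _ (e k).2 _ (e k').2 (fun h' => hkk (e.injective (Subtype.ext h'.symm))) _
            (mem_co hlit)

end Pool.Agent.T3h47.CD
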