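import Pool.Agent.T3h47.CD.Defs
import Pool.Agent.T3h47.CD.Restrict
import Pool.Agent.T3h47.CD.Single

/-!
# Circuits of depth two
-/

set_option autoImplicit false

namespace Pool.Agent.T3h47.CD

open Finset

variable {r m : ℕ}

/-- The terms of the DNF of the circuit or of its negation. -/
def Two.terms (G : Two r m) : List (Term r (Fin m)) :=
  if G.1 then G.2 else G.2.map fun T => T.map fun l => (l.1, l.2.1, !l.2.2)

open Classical in
/-- The terms which can be satisfied. -/
noncomputable def Two.live (G : Two r m) : List (Term r (Fin m)) :=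
  G.terms.filter fun T => ∃ x, Sat T x

theorem Two.live_length (G : Two r m) : G.live.length ≤ G.size := by
  unfold Two.live Two.size
  refine (List.length_filter_le _ _).trans ?_
  unfold Two.terms
  split_ifs
  · exact le_rfl
  · rw [List.length_map]

theorem Two.live_sat (G : Two r m) : ∀ T ∈ G.live, ∃ x, Sat T x := by
  intro T hT
  unfold Two.live at hT
  simpa using (List.mem_filter.1 hT).2

/-- The vertices given by words. -/
theorem Two.eval_iff (G : Two r m) (x : Fin r → ℕ) (v : Fin r → Fin m → Bool)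
    (hxv : ∀ j i, Nat.testBit (x j) (i : Fin m) = v j i) :
    (∃ T ∈ G.live, Sat T v) ↔ G.eval x = G.1 := by
  have h1 : (∃ T ∈ G.live, Sat T v) ↔ ∃ T ∈ G.terms, Sat T v := by
    constructor
    · rintro ⟨T, hT, hs⟩
      exact ⟨T, (List.mem_filter.1 hT).1, hs⟩
    · rintro ⟨T, hT, hs⟩
      refine ⟨T, ?_, hs⟩
      unfold Two.live
      rw [List.mem_filter]
      exact ⟨hT, by simpa using ⟨v, hs⟩⟩
  rw [h1]
  obtain ⟨c, L⟩ := G
  cases c with
  | true =>
    simp only [Two.terms, Two.eval, if_true, List.any_eq_true, List.all_eq_true, Literal.val,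
      beq_iff_eq, hxv, Sat]
  | false =>
    simp only [Two.terms, Two.eval, Bool.false_eq_true, if_false]
    rw [← Bool.not_eq_true, List.all_eq_true]
    simp only [List.any_eq_true, Literal.val, beq_iff_eq, hxv, Sat]
    push Not
    constructor
    · rintro ⟨T, hT, hs⟩
      rw [List.mem_map] at hT
      obtain ⟨T', hT', rfl⟩ := hT
      refine ⟨T', hT', ?_⟩
      intro l hl
      have := hs (l.1, l.2.1, !l.2.2) (List.mem_map.2 ⟨l, hl, rfl⟩)
      simp only at this
      rw [this]
      simp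
    · rintro ⟨T, hT, hs⟩
      refine ⟨_, List.mem_map.2 ⟨T, hT, rfl⟩, ?_⟩
      intro l hl
      obtain ⟨l', hl', rfl⟩ := List.mem_map.1 hl
      have := hs l' hl'
      simp only
      exact Bool.eq_not.2 this

/-- From words to numbers. -/
theorem to_numbers {n : ℕ} (v : Fin n → Fin m → Bool) (hv : Function.Injective v) :
    ∃ S ⊆ range (2 ^ m), S.card = n ∧
      ∀ G : Two r m, Fixed G.live v → ∃ b : Bool, ∀ x : Fin r → ℕ, Function.Injective x →
        (∀ j, x j ∈ S) → G.eval x = b := by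
  classical
  let N : Fin n → ℕ := fun a => Nat.ofBits (v a)
  have hN : Function.Injective N := by
    intro a b hab
    apply hv
    funext i
    have h1 := Nat.testBit_ofBits_lt (v a) i i.2
    have h2 := Nat.testBit_ofBits_lt (v b) i i.2
    have h3 : Nat.ofBits (v a) = Nat.ofBits (v b) := hab
    rw [h3, h2] at h1
    exact h1.symm
  refine ⟨univ.image N, ?_, by rw [card_image_of_injective _ hN, card_univ, Fintype.card_fin], ?_⟩
  · intro y hy
    obtain ⟨a, -, rfl⟩ := mem_image.1 hy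
    exact mem_range.2 (Nat.ofBits_lt_two_pow _)
  · intro G hG
    have key : ∀ x : Fin r → ℕ, Function.Injective x → (∀ j, x j ∈ univ.image N) →
        ∃ t : Fin r → Fin n, Function.Injective t ∧
          ((∃ T ∈ G.live, Sat T fun j => v (t j)) ↔ G.eval x = G.1) := by
      intro x hx hxS
      have h1 : ∀ j, ∃ a, N a = x j := fun j => by
        obtain ⟨a, -, ha⟩ := mem_image.1 (hxS j)
        exact ⟨a, ha⟩
      choose t ht using h1
      refine ⟨t, fun i j hij => hx (by rw [← ht, ← ht, hij]), ?_⟩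
      apply G.eval_iff
      intro j i
      rw [← ht]
      exact Nat.testBit_ofBits_lt (v (t j)) i i.2
    rcases hG with hG | hG
    · refine ⟨G.1, fun x hx hxS => ?_⟩
      obtain ⟨t, ht, h⟩ := key x hx hxS
      exact h.1 (hG t ht)
    · refine ⟨!G.1, fun x hx hxS => ?_⟩
      obtain ⟨t, ht, h⟩ := key x hx hxS
      have h2 : ¬ G.eval x = G.1 := fun h3 => by
        obtain ⟨T, hT, hs⟩ := h.2 h3
        exact hG t ht T hT hs
      exact Bool.eq_not.2 h2

theorem lt_two_pow_log (n : ℕ) : n ≤ 2 ^ (Nat.log 2 n + 1) :=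
  (Nat.lt_pow_succ_log_self (by norm_num) n).le

/-- One circuit of depth two. -/
theorem depth_two_one (hr : 2 ≤ r) (n s : ℕ) (G : Two r m) (hG : G.size ≤ s)
    (hm : 2 ^ 11 * r ^ (r + 1) * (Nat.log 2 s + 1) * (Nat.log 2 n + 1) ^ 2 ≤ m) :
    ∃ S ⊆ range (2 ^ m), S.card = n ∧ StrongHomog G.eval S := by
  obtain ⟨φ, hφ⟩ := exists_hash_log (n := n) hr
  obtain ⟨X, ρ, hX, hT⟩ := restrict G.live (G.live_length.trans hG) (log_cond s)
  rw [Fintype.card_fin] at hX
  set L := Nat.log 2 s with hL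
  set k := Nat.log 2 n with hk
  set K := r ^ r * (r * (k + 1)) with hK
  have hK' : K = r ^ (r + 1) * (k + 1) := by rw [hK]; ring
  have h1 : 1 ≤ r ^ (r + 1) := Nat.one_le_pow _ _ (by omega)
  have h2 : ((2 * (2 * (L + 4)) + 1) * K + 1) * (k + 1) ≤ X.card := by
    have h3 : 6 * (((2 * (2 * (L + 4)) + 1) * K + 1) * (k + 1)) ≤ m := by
      refine le_trans ?_ hm
      rw [hK']
      have h4 : 1 ≤ r ^ (r + 1) * (k + 1) := Nat.mul_pos h1 (Nat.succ_pos _)
      calc 6 * (((2 * (2 * (L + 4)) + 1) * (r ^ (r + 1) * (k + 1)) + 1) * (k + 1))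
          ≤ 6 * (((2 * (2 * (L + 4)) + 1) * (r ^ (r + 1) * (k + 1)) +
            r ^ (r + 1) * (k + 1)) * (k + 1)) := by gcongr
        _ = (6 * (4 * L + 18)) * r ^ (r + 1) * (k + 1) ^ 2 := by ring
        _ ≤ (2 ^ 11 * (L + 1)) * r ^ (r + 1) * (k + 1) ^ 2 :=
            Nat.mul_le_mul_right _ (Nat.mul_le_mul_right _ (by omega))
        _ = _ := by ring
    omega
  obtain ⟨v, hv, hF⟩ := single hφ hr G.live (2 * (L + 4)) (k + 1) (lt_two_pow_log n) X ρ
    (fun T hTF hTa => (card_le_card inter_subset_left).trans (hT T hTF hTa).le) h2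
  obtain ⟨S, hS, hSc, hSG⟩ := to_numbers (r := r) v hv
  exact ⟨S, hS, hSc, hSG G hF⟩

/-- Several circuits of depth two. -/
theorem depth_two_many (hr : 2 ≤ r) (n s q : ℕ) (hq : 1 ≤ q) (G : Fin q → Two r m)
    (hG : ∑ l, (G l).size ≤ s)
    (hm : 2 ^ 11 * r ^ (r + 1) * (q * (Nat.log 2 s + 1)) ^ 2 * (Nat.log 2 n + 1) ≤ m) :
    ∃ S ⊆ range (2 ^ m), S.card = n ∧ ∀ l, StrongHomog (G l).eval S := by
  classical
  obtain ⟨φ, hφ⟩ := exists_hash_log (n := n) hr
  obtain ⟨X, ρ, hX, hT⟩ := restrict ((List.ofFn fun l => (G l).live).flatten) (s := s) (by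
    rw [List.length_flatten, List.map_ofFn, List.sum_ofFn]
    exact (sum_le_sum fun l _ => (G l).live_length).trans hG) (log_cond s)
  rw [Fintype.card_fin] at hX
  set L := Nat.log 2 s with hL
  set k := Nat.log 2 n with hk
  set K := r ^ r * (r * (k + 1)) with hK
  have hK' : K = r ^ (r + 1) * (k + 1) := by rw [hK]; ring
  have h1 : 1 ≤ r ^ (r + 1) := Nat.one_le_pow _ _ (by omega)
  set w := 2 * (L + 4) with hw
  have h2 : (q * w + 1) * (q * K * w) + (k + 1) ≤ X.card := by
    have h3 : 6 * ((q * w + 1) * (q * K * w) + (k + 1)) ≤ m := by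
      refine le_trans ?_ hm
      have h4 : 1 ≤ q * w := Nat.mul_pos hq (by omega)
      have h5 : k + 1 ≤ q * w * (q * K * w) := by
        rw [hK']
        calc k + 1 = 1 * (1 * (1 * (k + 1)) * 1) := by ring
          _ ≤ q * w * (q * (r ^ (r + 1) * (k + 1)) * w) := by
            gcongr
            omega
      calc 6 * ((q * w + 1) * (q * K * w) + (k + 1))
          ≤ 6 * ((q * w + q * w) * (q * K * w) + q * w * (q * K * w)) := by gcongr
        _ = 18 * K * (q * w) ^ 2 := by ring
        _ ≤ 18 * K * (q * (8 * (L + 1))) ^ 2 := by gcongr; omega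
        _ = 1152 * K * (q * (L + 1)) ^ 2 := by ring
        _ ≤ 2 ^ 11 * K * (q * (L + 1)) ^ 2 := by gcongr; norm_num
        _ = _ := by rw [hK']; ring
    omega
  obtain ⟨v, hv, -, hF⟩ := multi hφ (fun l => (G l).live) (fun l => (G l).live_sat) w (k + 1)
    (lt_two_pow_log n) (q * w) X ρ (fun _ => w) (by simp) (fun _ => le_rfl) (by
      intro l T hTF hTa
      refine (card_le_card inter_subset_left).trans (hT T ?_ hTa).le
      rw [List.mem_flatten]
      exact ⟨_, List.mem_ofFn.2 ⟨l, rfl⟩, hTF⟩) h2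
  obtain ⟨S, hS, hSc, hSG⟩ := to_numbers (r := r) v hv
  exact ⟨S, hS, hSc, fun l => hSG (G l) (hF l)⟩

end Pool.Agent.T3h47.CD
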